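import Mathlib

/-! Moment functionals of power series that are bounded by the sup norm on a set of reals. -/

namespace Pool.Agent.MP_108ce6_nt

open Polynomial Finset

/-- The linear functional on polynomials with prescribed moments. -/
noncomputable def mom (c : ℕ → ℝ) : ℝ[X] →ₗ[ℝ] ℝ := (Polynomial.basisMonomials ℝ).constr ℝ c

@[simp] theorem mom_monomial (c : ℕ → ℝ) (n : ℕ) (a : ℝ) : mom c (monomial n a) = a * c n := by
  have h : monomial n a = a • (Polynomial.basisMonomials ℝ n) := by
    simp [Polynomial.smul_monomial]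
  rw [h, map_smul, mom, Module.Basis.constr_basis, smul_eq_mul]

@[simp] theorem mom_X_pow (c : ℕ → ℝ) (n : ℕ) : mom c (X ^ n) = c n := by
  rw [← monomial_one_right_eq_X_pow, mom_monomial, one_mul]

theorem mom_C_mul (c : ℕ → ℝ) (a : ℝ) (p : ℝ[X]) : mom c (C a * p) = a * mom c p := by
  rw [← smul_eq_C_mul, map_smul, smul_eq_mul]

theorem lin_ext {M : Type*} [AddCommGroup M] [Module ℝ M] {f g : ℝ[X] →ₗ[ℝ] M}
    (h : ∀ n, f (X ^ n) = g (X ^ n)) : f = g := by
  refine (Polynomial.basisMonomials ℝ).ext fun n => ?_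
  simpa [monomial_one_right_eq_X_pow] using h n

/-- The moment functional is bounded by the sup norm on `K`. -/
def Bnd (K : Set ℝ) (c : ℕ → ℝ) : Prop :=
  ∃ C : ℝ, 0 ≤ C ∧ ∀ (p : ℝ[X]) (M : ℝ), 0 ≤ M → (∀ x ∈ K, |p.eval x| ≤ M) → |mom c p| ≤ C * M

theorem Bnd.mono {K K' : Set ℝ} {c : ℕ → ℝ} (h : Bnd K c) (hK : K ⊆ K') : Bnd K' c := by
  obtain ⟨C, hC, h⟩ := h
  exact ⟨C, hC, fun p M hM hp => h p M hM fun x hx => hp x (hK hx)⟩

theorem Bnd.lin {K : Set ℝ} {c : ℕ → ℝ} (h : Bnd K c) {B : ℝ} (hB : ∀ x ∈ K, |x| ≤ B) (t : ℝ) :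
    Bnd K (fun n => c (n + 1) - t * c n) := by
  obtain ⟨C, hC, h⟩ := h
  have key : mom (fun n => c (n + 1) - t * c n) = (mom c).comp (LinearMap.mulLeft ℝ (X - Polynomial.C t)) := by
    refine lin_ext fun n => ?_
    simp only [mom_X_pow, LinearMap.comp_apply, LinearMap.mulLeft_apply, sub_mul, map_sub, mom_C_mul]
    rw [← pow_succ', mom_X_pow]
  refine ⟨C * (|B| + |t|), by positivity, fun p M hM hp => ?_⟩
  rw [key, LinearMap.comp_apply, LinearMap.mulLeft_apply, mul_assoc]
  refine h _ _ (by positivity) fun x hx => ?_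
  rw [eval_mul, abs_mul, eval_sub, eval_X, eval_C]
  refine mul_le_mul ((abs_sub _ _).trans ?_) (hp x hx) (abs_nonneg _) (by positivity)
  have := (hB x hx).trans (le_abs_self B)
  linarith

theorem Bnd.shift {K : Set ℝ} {c : ℕ → ℝ} (h : Bnd K c) {B : ℝ} (hB : ∀ x ∈ K, |x| ≤ B) :
    Bnd K (fun n => c (n + 1)) := by
  simpa using h.lin hB 0

theorem Bnd.conv {K₁ K₂ : Set ℝ} {a b : ℕ → ℝ} (ha : Bnd K₁ a) (hb : Bnd K₂ b) {g : ℝ} (hg : 0 < g)
    (hsep : ∀ s ∈ K₁, ∀ t ∈ K₂, g ≤ |s - t|) :
    Bnd (K₁ ∪ K₂) (fun n => ∑ i ∈ range n, a i * b (n - 1 - i)) := by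
  obtain ⟨C₁, hC₁, ha⟩ := ha
  obtain ⟨C₂, hC₂, hb⟩ := hb
  let Ψ : ℝ[X] →ₗ[ℝ] ℝ[X] := (Polynomial.basisMonomials ℝ).constr ℝ
    (fun n => ∑ i ∈ range n, C (b (n - 1 - i)) * X ^ i)
  have hΨ : ∀ n, Ψ (X ^ n) = ∑ i ∈ range n, C (b (n - 1 - i)) * X ^ i := fun n => by
    have := (Polynomial.basisMonomials ℝ).constr_basis ℝ
      (fun n => ∑ i ∈ range n, C (b (n - 1 - i)) * X ^ i) n
    simpa [monomial_one_right_eq_X_pow] using this
  let D : ℝ → ℝ[X] →ₗ[ℝ] ℝ[X] := fun s => (Polynomial.basisMonomials ℝ).constr ℝ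
    (fun n => ∑ i ∈ range n, C (s ^ i) * X ^ (n - 1 - i))
  have hD : ∀ s n, D s (X ^ n) = ∑ i ∈ range n, C (s ^ i) * X ^ (n - 1 - i) := fun s n => by
    have := (Polynomial.basisMonomials ℝ).constr_basis ℝ
      (fun n => ∑ i ∈ range n, C (s ^ i) * X ^ (n - 1 - i)) n
    rw [← monomial_one_right_eq_X_pow]
    rw [Polynomial.coe_basisMonomials] at this
    exact this
  have h1 : mom (fun n => ∑ i ∈ range n, a i * b (n - 1 - i)) = (mom a).comp Ψ := by
    refine lin_ext fun n => ?_
    rw [mom_X_pow, LinearMap.comp_apply, hΨ, map_sum]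
    refine sum_congr rfl fun i _ => ?_
    rw [mom_C_mul, mom_X_pow, mul_comm]
  have h2 : ∀ s, (Polynomial.leval s).comp Ψ = (mom b).comp (D s) := fun s => by
    refine lin_ext fun n => ?_
    rw [LinearMap.comp_apply, LinearMap.comp_apply, hΨ, hD, map_sum, map_sum]
    refine sum_congr rfl fun i _ => ?_
    rw [mom_C_mul, mom_X_pow]
    simp only [leval_apply, eval_mul, eval_C, eval_pow, eval_X]
    ring
  have h3 : ∀ s t, (s - t) • (Polynomial.leval t).comp (D s)
      = Polynomial.leval s - Polynomial.leval t := fun s t => by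
    refine lin_ext fun n => ?_
    rw [LinearMap.smul_apply, LinearMap.comp_apply, hD, map_sum, smul_eq_mul, mul_comm]
    simp only [leval_apply, eval_mul, eval_C, eval_pow, eval_X, LinearMap.sub_apply, smul_eq_mul,
      op_smul_eq_mul]
    exact geom_sum₂_mul s t n
  refine ⟨C₁ * (C₂ * (2 / g)), by positivity, fun p M hM hp => ?_⟩
  rw [h1, LinearMap.comp_apply, mul_assoc]
  refine ha _ _ (by positivity) fun s hs => ?_
  have e2 := LinearMap.congr_fun (h2 s) p
  simp only [LinearMap.comp_apply, leval_apply] at e2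
  rw [e2, mul_assoc]
  refine hb _ _ (by positivity) fun t ht => ?_
  have e3 := LinearMap.congr_fun (h3 s t) p
  simp only [LinearMap.smul_apply, LinearMap.comp_apply, leval_apply, LinearMap.sub_apply,
    smul_eq_mul] at e3
  have h4 : |s - t| * |eval t (D s p)| ≤ 2 * M := by
    rw [← abs_mul, e3]
    have := hp s (Or.inl hs)
    have := hp t (Or.inr ht)
    have := abs_sub (eval s p) (eval t p)
    linarith
  rw [div_mul_eq_mul_div, le_div_iff₀ hg]
  have := hsep s hs t ht
  nlinarith [abs_nonneg (eval t (D s p))]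

/-- Boundedness for the coefficient sequence of a power series. -/
def BndS (K : Set ℝ) (F : PowerSeries ℝ) : Prop := Bnd K fun n => PowerSeries.coeff n F

theorem BndS.mul {K₁ K₂ : Set ℝ} {F G : PowerSeries ℝ} (hF : BndS K₁ F) (hG : BndS K₂ G) {g B : ℝ}
    (hg : 0 < g) (hsep : ∀ s ∈ K₁, ∀ t ∈ K₂, g ≤ |s - t|) (hB : ∀ x ∈ K₁ ∪ K₂, |x| ≤ B) :
    BndS (K₁ ∪ K₂) (F * G) := by
  have h := (Bnd.conv hF hG hg hsep).shift hB
  unfold BndS
  convert h using 2 with n
  rw [PowerSeries.coeff_mul, Finset.Nat.sum_antidiagonal_eq_sum_range_succ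
    (fun i j => PowerSeries.coeff i F * PowerSeries.coeff j G)]
  rfl

open Real intervalIntegral in
/-- Arcsine moments of a slit. -/
theorem slit (a b : ℝ) (hab : a ≤ b) : ∃ A : PowerSeries ℝ, PowerSeries.constantCoeff A = 1 ∧
    A ^ 2 * ((1 - PowerSeries.C a * PowerSeries.X) * (1 - PowerSeries.C b * PowerSeries.X)) = 1 ∧
    BndS (Set.Icc a b) A := by
  set m := (a + b) / 2 with hm
  set w := (b - a) / 2 with hw
  let y : ℝ → ℝ := fun φ => m + w * cos φ
  have hy : Continuous y := by fun_prop
  let c : ℕ → ℝ := fun n => π⁻¹ * ∫ φ in (0 : ℝ)..π, y φ ^ n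
  have hc0 : c 0 = 1 := by simp [c, pi_ne_zero]
  have hint : ∀ n, IntervalIntegrable (fun φ => y φ ^ n) MeasureTheory.volume 0 π :=
    fun n => (hy.pow n).intervalIntegrable _ _
  have hrec : ∀ n : ℕ, (n + 1 : ℝ) * c (n + 1) - (2 * n + 1) * m * c n + n * (a * b) * c (n - 1) = 0 := by
    intro n
    have hder : ∀ φ, HasDerivAt (fun φ => y φ ^ n * (w * sin φ))
        ((n + 1 : ℝ) * y φ ^ (n + 1) - (2 * n + 1) * m * y φ ^ n + n * (a * b) * y φ ^ (n - 1)) φ := by
      intro φ
      have h1 : HasDerivAt y (w * -sin φ) φ := ((hasDerivAt_cos φ).const_mul w).const_add m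
      have h2 := (h1.pow n).mul ((hasDerivAt_sin φ).const_mul w)
      refine h2.congr_deriv ?_
      have e1 : w * cos φ = y φ - m := by simp [y]
      have e2 : (w * sin φ) ^ 2 = w ^ 2 - (y φ - m) ^ 2 := by
        rw [← e1]; nlinarith [sin_sq_add_cos_sq φ]
      have e3 : a * b = m ^ 2 - w ^ 2 := by rw [hm, hw]; ring
      rcases n with _ | n
      · simp [e1]
      · simp only [Nat.add_sub_cancel, Pi.pow_apply]
        rw [e1, e3]
        push_cast
        linear_combination -(n + 1 : ℝ) * y φ ^ n * e2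
    have h2 := integral_eq_sub_of_hasDerivAt (a := 0) (b := π) (fun φ _ => hder φ)
      ((by fun_prop : Continuous fun φ => (n + 1 : ℝ) * y φ ^ (n + 1) - (2 * n + 1) * m * y φ ^ n +
        n * (a * b) * y φ ^ (n - 1)).intervalIntegrable _ _)
    rw [integral_add (((hint _).const_mul _).sub ((hint _).const_mul _)) ((hint _).const_mul _),
      integral_sub ((hint _).const_mul _) ((hint _).const_mul _), integral_const_mul,
      integral_const_mul, integral_const_mul] at h2
    simp only [sin_pi, sin_zero, mul_zero, sub_zero] at h2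
    simp only [c]
    linear_combination π⁻¹ * h2
  refine ⟨PowerSeries.mk c, by simp [← PowerSeries.coeff_zero_eq_constantCoeff_apply, hc0], ?_, ?_⟩
  · set A := PowerSeries.mk c with hA
    have hode : 2 * (PowerSeries.derivative ℝ A) * (1 - PowerSeries.C (a + b) * PowerSeries.X
        + PowerSeries.C (a * b) * PowerSeries.X ^ 2)
        + A * (- PowerSeries.C (a + b) + 2 * PowerSeries.C (a * b) * PowerSeries.X) = 0 := by
      have e : 2 * (PowerSeries.derivative ℝ A) * (1 - PowerSeries.C (a + b) * PowerSeries.X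
        + PowerSeries.C (a * b) * PowerSeries.X ^ 2)
        + A * (- PowerSeries.C (a + b) + 2 * PowerSeries.C (a * b) * PowerSeries.X) =
        PowerSeries.C 2 * PowerSeries.derivative ℝ A
          - PowerSeries.C (2 * (a + b)) * (PowerSeries.X * PowerSeries.derivative ℝ A)
          + PowerSeries.C (2 * (a * b)) * (PowerSeries.X * (PowerSeries.X * PowerSeries.derivative ℝ A))
          - PowerSeries.C (a + b) * A + PowerSeries.C (2 * (a * b)) * (PowerSeries.X * A) := by
        simp only [map_mul, map_ofNat]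
        ring
      rw [e]
      ext n
      have hab' : a + b = 2 * m := by rw [hm]; ring
      rcases n with _ | _ | n
      · have := hrec 0
        simp only [map_add, map_sub, PowerSeries.coeff_C_mul, PowerSeries.coeff_derivative, hA,
          PowerSeries.coeff_zero_X_mul, hab', PowerSeries.coeff_mk, map_zero]
        push_cast at this ⊢
        linear_combination 2 * this
      · have := hrec 1
        simp only [map_add, map_sub, PowerSeries.coeff_C_mul, PowerSeries.coeff_derivative, hA,
          PowerSeries.coeff_zero_X_mul, PowerSeries.coeff_succ_X_mul, hab', PowerSeries.coeff_mk,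
          map_zero]
        push_cast at this ⊢
        linear_combination 2 * this
      · have := hrec (n + 2)
        simp only [map_add, map_sub, PowerSeries.coeff_C_mul, PowerSeries.coeff_derivative, hA,
          PowerSeries.coeff_succ_X_mul, hab', PowerSeries.coeff_mk, map_zero]
        have e2 : n + 2 - 1 = n + 1 := rfl
        rw [e2] at this
        push_cast at this ⊢
        linear_combination 2 * this
    have hq : (1 - PowerSeries.C a * PowerSeries.X) * (1 - PowerSeries.C b * PowerSeries.X) =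
        1 - PowerSeries.C (a + b) * PowerSeries.X + PowerSeries.C (a * b) * PowerSeries.X ^ 2 := by
      simp only [map_mul, map_add]; ring
    rw [hq]
    refine PowerSeries.derivative.ext ?_ ?_
    · simp only [Derivation.leibniz, Derivation.leibniz_pow, map_add, map_sub, smul_eq_mul,
        PowerSeries.derivative_C, PowerSeries.derivative_X, Derivation.map_one_eq_zero, nsmul_eq_mul]
      simp only [map_mul, map_add] at hode ⊢
      push_cast
      linear_combination A * hode
    · have h0 : PowerSeries.constantCoeff A = 1 := by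
        rw [← PowerSeries.coeff_zero_eq_constantCoeff_apply, hA, PowerSeries.coeff_mk, hc0]
      simp [h0]
  · refine ⟨1, zero_le_one, fun p M hM hp => ?_⟩
    have key : ∀ p : ℝ[X], mom (fun n => PowerSeries.coeff n (PowerSeries.mk c)) p =
        π⁻¹ * ∫ φ in (0 : ℝ)..π, p.eval (y φ) := by
      intro p
      induction p using Polynomial.induction_on' with
      | add p q hp hq =>
        simp only [map_add, hp, hq, eval_add]
        have hi : ∀ p : ℝ[X], IntervalIntegrable (fun φ => p.eval (y φ)) MeasureTheory.volume 0 π :=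
          fun p => (p.continuous.comp hy).intervalIntegrable _ _
        rw [integral_add (hi p) (hi q), mul_add]
      | monomial n r =>
        simp only [mom_monomial, PowerSeries.coeff_mk, eval_monomial, integral_const_mul, c]
        ring
    rw [key, abs_mul, abs_of_pos (inv_pos.2 pi_pos), one_mul, inv_mul_le_iff₀ pi_pos]
    have := norm_integral_le_of_norm_le_const (a := 0) (b := π) (C := M)
      (f := fun φ => p.eval (y φ)) fun φ _ => hp _ (by
        have h1 := neg_one_le_cos φ
        have h2 := cos_le_one φ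
        have h3 : 0 ≤ w := by rw [hw]; linarith
        constructor <;> simp only [y] <;> nlinarith)
    rw [sub_zero, abs_of_pos pi_pos, mul_comm] at this
    exact this

end Pool.Agent.MP_108ce6_nt
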