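import Mathlib

open Finset Polynomial

namespace Pool.Agent.MP_108ce6_nt.Cnt

/-- power sums -/
noncomputable def pk (k : ℕ) (T : Multiset ℝ) : ℝ := (T.map fun t => t ^ k).sum

/-- the reversed polynomial with root multiset `T` -/
noncomputable def ET (T : Multiset ℝ) : ℝ[X] := (T.map fun t => 1 - C t * X).prod

/-- sum of the values of a polynomial -/
noncomputable def tr (Q : ℝ[X]) (T : Multiset ℝ) : ℝ := (T.map fun t => Q.eval t).sum

theorem newton_ps (T : Multiset ℝ) :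
    ((derivative (ET T) : ℝ[X]) : PowerSeries ℝ) =
      -((ET T : ℝ[X]) : PowerSeries ℝ) * PowerSeries.mk fun j => pk (j + 1) T := by
  induction T using Multiset.induction_on with
  | empty =>
    have : (PowerSeries.mk fun j => pk (j + 1) 0) = 0 := by ext; simp [pk]
    simp [ET, this]
  | cons t T ih =>
    have h1 : ET (t ::ₘ T) = (1 - C t * X) * ET T := by simp [ET]
    have h2 : (PowerSeries.mk fun j => pk (j + 1) (t ::ₘ T)) =
        (PowerSeries.mk fun j => t ^ (j + 1)) + PowerSeries.mk fun j => pk (j + 1) T := by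
      ext; simp [pk]
    have h3 : (1 - PowerSeries.C t * PowerSeries.X) * (PowerSeries.mk fun j => t ^ (j + 1)) =
        PowerSeries.C t := by
      ext n
      cases n with
      | zero => simp [sub_mul, mul_assoc]
      | succ n => simp [sub_mul, mul_assoc, PowerSeries.coeff_succ_X_mul, pow_succ, mul_comm t]
    rw [h1, h2, derivative_mul]
    simp only [derivative_sub, derivative_one, derivative_mul, derivative_C, zero_mul, derivative_X,
      mul_one, zero_add, zero_sub, Polynomial.coe_add, Polynomial.coe_mul, Polynomial.coe_neg,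
      Polynomial.coe_C, Polynomial.coe_sub, Polynomial.coe_one, Polynomial.coe_X, ih]
    linear_combination ((ET T : ℝ[X]) : PowerSeries ℝ) * h3

theorem newton (T : Multiset ℝ) (k : ℕ) :
    (ET T).coeff (k + 1) * (k + 1) =
      -∑ z ∈ antidiagonal k, (ET T).coeff z.1 * pk (z.2 + 1) T := by
  have := congrArg (PowerSeries.coeff k) (newton_ps T)
  rw [Polynomial.coeff_coe, coeff_derivative, neg_mul, map_neg, PowerSeries.coeff_mul] at this
  simpa [Polynomial.coeff_coe] using this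

theorem ET_zero (T : Multiset ℝ) : (ET T).coeff 0 = 1 := by
  induction T using Multiset.induction_on with
  | empty => simp [ET]
  | cons t T ih =>
    have h1 : ET (t ::ₘ T) = (1 - C t * X) * ET T := by simp [ET]
    rw [h1, mul_coeff_zero, ih]
    simp

theorem newton_diff {T T' : Multiset ℝ} {k : ℕ} (h1 : ∀ i ≤ k, (ET T).coeff i = (ET T').coeff i)
    (h2 : ∀ j < k, pk (j + 1) T = pk (j + 1) T') :
    pk (k + 1) T - pk (k + 1) T' = -((k + 1) * ((ET T).coeff (k + 1) - (ET T').coeff (k + 1))) := by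
  have e : ∑ z ∈ antidiagonal k, (ET T).coeff z.1 * pk (z.2 + 1) T -
      ∑ z ∈ antidiagonal k, (ET T').coeff z.1 * pk (z.2 + 1) T' = pk (k + 1) T - pk (k + 1) T' := by
    rw [← sum_sub_distrib, sum_eq_single (0, k)]
    · simp [ET_zero]
    · rintro ⟨i, j⟩ hz hne
      rw [HasAntidiagonal.mem_antidiagonal] at hz
      have hj : j < k := by
        by_contra h
        exact hne (Prod.ext (by simp only at hz ⊢; omega) (by simp only at hz ⊢; omega))
      rw [h1 i (by simp only at hz; omega), h2 j hj, sub_self]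
    · simp
  linear_combination newton T k - newton T' k - e

theorem coeff_eq {T T' : Multiset ℝ} (k : ℕ) (h : ∀ j < k, pk (j + 1) T = pk (j + 1) T') :
    ∀ i ≤ k, (ET T).coeff i = (ET T').coeff i := by
  induction k with
  | zero =>
    intro i hi
    rw [Nat.le_zero.1 hi, ET_zero, ET_zero]
  | succ k ih =>
    have h1 := ih fun j hj => h j (by omega)
    intro i hi
    rcases hi.eq_or_lt with rfl | hi
    · have h2 := newton_diff h1 fun j hj => h j (by omega)
      rw [h k (by omega), sub_self, eq_comm, neg_eq_zero, mul_eq_zero] at h2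
      exact sub_eq_zero.1 (h2.resolve_left (by positivity))
    · exact h1 i (by omega)

theorem tr_eq {Q : ℝ[X]} {k : ℕ} (hQ : Q.natDegree ≤ k) (T : Multiset ℝ) :
    tr Q T = ∑ j ∈ range (k + 1), Q.coeff j * pk j T := by
  induction T using Multiset.induction_on with
  | empty => simp [tr, pk]
  | cons t T ih =>
    simp only [tr, pk, Multiset.map_cons, Multiset.sum_cons, mul_add, sum_add_distrib] at ih ⊢
    rw [ih, eval_eq_sum_range' (Nat.lt_succ_of_le hQ)]

theorem tr_diff {Q : ℝ[X]} {k : ℕ} (hQ : Q.natDegree ≤ k) {T T' : Multiset ℝ}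
    (h : ∀ j < k, pk j T = pk j T') : tr Q T - tr Q T' = Q.coeff k * (pk k T - pk k T') := by
  rw [tr_eq hQ, tr_eq hQ, sum_range_succ, sum_range_succ,
    sum_congr rfl fun j hj => by rw [h j (mem_range.1 hj)]]
  ring

theorem pk_eq {Q : ℕ → ℝ[X]} (hQ : ∀ k, (Q k).natDegree ≤ k) (h0 : ∀ k, (Q k).coeff k ≠ 0)
    {T T' : Multiset ℝ} (k : ℕ) (h : ∀ j < k, tr (Q j) T = tr (Q j) T') :
    ∀ j < k, pk j T = pk j T' := by
  induction k with
  | zero => intro j hj; omega
  | succ k ih =>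
    have h1 := ih fun j hj => h j (by omega)
    intro j hj
    rcases (Nat.lt_succ_iff.1 hj).eq_or_lt with rfl | hj
    · have h2 := tr_diff (hQ j) h1
      rw [h j (by omega), sub_self, eq_comm, mul_eq_zero] at h2
      exact sub_eq_zero.1 (h2.resolve_left (h0 j))
    · exact h1 j hj

/-- the reversed polynomial has integer coefficients -/
def IsI (T : Multiset ℝ) : Prop := ∃ G : ℤ[X], G.map (Int.castRingHom ℝ) = ET T

theorem lattice {Q : ℕ → ℝ[X]} (hQ : ∀ k, (Q k).natDegree ≤ k) (h0 : ∀ k, (Q k).coeff k ≠ 0)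
    {T T' : Multiset ℝ} (hT : IsI T) (hT' : IsI T') (k : ℕ)
    (h : ∀ j < k, tr (Q j) T = tr (Q j) T') :
    ∃ n : ℤ, tr (Q k) T - tr (Q k) T' = ((Q k).coeff k * max (k : ℝ) 1) * n := by
  have h1 := pk_eq hQ h0 k h
  rw [tr_diff (hQ k) h1]
  cases k with
  | zero => exact ⟨(T.card : ℤ) - T'.card, by simp [pk]⟩
  | succ k =>
    obtain ⟨G, hG⟩ := hT
    obtain ⟨G', hG'⟩ := hT'
    have h2 : ∀ j < k, pk (j + 1) T = pk (j + 1) T' := fun j hj => h1 _ (by omega)
    refine ⟨G'.coeff (k + 1) - G.coeff (k + 1), ?_⟩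
    rw [newton_diff (coeff_eq k h2) h2, ← hG, ← hG', coeff_map, coeff_map,
      max_eq_left (by push_cast; linarith [(Nat.cast_nonneg k : (0 : ℝ) ≤ k)])]
    simp only [eq_intCast]
    push_cast
    ring

theorem ET_reflect (T : Multiset ℝ) :
    reflect T.card (T.map fun t => X - C t).prod = ET T := by
  induction T using Multiset.induction_on with
  | empty => simp [ET]
  | cons t T ih =>
    rw [Multiset.map_cons, Multiset.prod_cons, Multiset.card_cons, add_comm,
      reflect_mul _ _ (natDegree_X_sub_C t).le (natDegree_multiset_prod_X_sub_C_eq_card T).le, ih]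
    simp [ET, reflect_sub, reflect_C]

theorem inj {Q : ℕ → ℝ[X]} (hQ : ∀ k, (Q k).natDegree ≤ k) (h0 : ∀ k, (Q k).coeff k ≠ 0)
    {T T' : Multiset ℝ} {N : ℕ} (hT : T.card ≤ N)
    (h : ∀ j < N + 1, tr (Q j) T = tr (Q j) T') : T = T' := by
  have h1 := pk_eq hQ h0 _ h
  have h2 : T.card = T'.card := by
    have := h1 0 (by omega)
    simpa [pk] using this
  have h3 := coeff_eq (T := T) (T' := T') N fun j hj => h1 _ (by omega)
  have h4 : ∀ U : Multiset ℝ, (ET U).natDegree ≤ U.card := fun U => by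
    rw [← ET_reflect]
    exact natDegree_reflect_le.trans (by rw [natDegree_multiset_prod_X_sub_C_eq_card, max_self])
  have h5 : ET T = ET T' := by
    ext i
    by_cases hi : i ≤ N
    · exact h3 i hi
    · rw [coeff_eq_zero_of_natDegree_lt (by have := h4 T; omega),
        coeff_eq_zero_of_natDegree_lt (by have := h4 T'; omega)]
  rw [← ET_reflect, ← ET_reflect, ← h2] at h5
  have h6 := congrArg (reflect T.card) h5
  rw [reflect_reflect, reflect_reflect] at h6
  rw [← roots_multiset_prod_X_sub_C T, h6, roots_multiset_prod_X_sub_C]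

theorem IsI.sum {ι : Type} (A : Finset ι) (T : ι → Multiset ℝ) (h : ∀ i ∈ A, IsI (T i)) :
    IsI (∑ i ∈ A, T i) := by
  refine sum_induction _ _ ?_ ⟨1, by simp [ET]⟩ h
  rintro U V ⟨G, hG⟩ ⟨G', hG'⟩
  exact ⟨G * G', by simp [Polynomial.map_mul, hG, hG', ET]⟩

theorem tr_sum {ι : Type} (Q : ℝ[X]) (A : Finset ι) (T : ι → Multiset ℝ) :
    tr Q (∑ i ∈ A, T i) = ∑ i ∈ A, tr Q (T i) := by
  classical
  induction A using Finset.induction_on with
  | empty => simp [tr]
  | insert a A ha ih =>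
    rw [sum_insert ha, sum_insert ha, ← ih]
    simp [tr]


theorem tree {ι : Type} (Y : ℕ → ι → ℝ) (f : ℕ → ℝ → ℝ) (κ Z : ℕ → ℝ) (hf : ∀ k y, 0 ≤ f k y)
    (hZ1 : ∀ k, 0 ≤ Z k)
    (hZ : ∀ k (W : Finset ℝ), (∀ y ∈ W, ∀ y' ∈ W, ∃ n : ℤ, y - y' = κ k * n) →
      ∑ y ∈ W, f k y ≤ Z k) (𝒜 : Finset ι)
    (h1 : ∀ k, ∀ a ∈ 𝒜, ∀ b ∈ 𝒜, (∀ j < k, Y j a = Y j b) → ∃ n : ℤ, Y k a - Y k b = κ k * n)
    (N : ℕ) (h2 : ∀ a ∈ 𝒜, ∀ b ∈ 𝒜, (∀ j < N, Y j a = Y j b) → a = b) :
    ∑ a ∈ 𝒜, ∏ k ∈ range N, f k (Y k a) ≤ ∏ k ∈ range N, Z k := by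
  classical
  have key : ∀ m j, j + m = N → ∀ ℬ ⊆ 𝒜, (∀ a ∈ ℬ, ∀ b ∈ ℬ, ∀ i < j, Y i a = Y i b) →
      ∑ a ∈ ℬ, ∏ k ∈ Ico j N, f k (Y k a) ≤ ∏ k ∈ Ico j N, Z k := by
    intro m
    induction m with
    | zero =>
      intro j hj ℬ hB h
      obtain rfl : j = N := by omega
      simp only [Ico_self, prod_empty, sum_const, nsmul_eq_mul, mul_one, Nat.cast_le_one]
      exact card_le_one.2 fun a ha b hb => h2 a (hB ha) b (hB hb) (h a ha b hb)
    | succ m ih =>
      intro j hj ℬ hB h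
      have hjN : j < N := by omega
      rw [prod_eq_prod_Ico_succ_bot hjN,
        ← sum_fiberwise_of_maps_to (g := Y j) (t := ℬ.image (Y j)) fun a ha => mem_image_of_mem _ ha]
      have e1 : ∀ y ∈ ℬ.image (Y j), ∑ a ∈ ℬ with Y j a = y, ∏ k ∈ Ico j N, f k (Y k a) ≤
          f j y * ∏ k ∈ Ico (j + 1) N, Z k := by
        intro y _
        have e2 : ∑ a ∈ ℬ with Y j a = y, ∏ k ∈ Ico j N, f k (Y k a) =
            f j y * ∑ a ∈ ℬ with Y j a = y, ∏ k ∈ Ico (j + 1) N, f k (Y k a) := by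
          rw [mul_sum]
          refine sum_congr rfl fun a ha => ?_
          rw [prod_eq_prod_Ico_succ_bot hjN, (mem_filter.1 ha).2]
        rw [e2]
        refine mul_le_mul_of_nonneg_left (ih (j + 1) (by omega) _ ((filter_subset _ _).trans hB)
          fun a ha b hb i hi => ?_) (hf _ _)
        rw [mem_filter] at ha hb
        rcases (Nat.lt_succ_iff.1 hi).eq_or_lt with rfl | hi
        · rw [ha.2, hb.2]
        · exact h a ha.1 b hb.1 i hi
      refine (sum_le_sum e1).trans ?_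
      rw [← sum_mul]
      refine mul_le_mul_of_nonneg_right (hZ j _ fun y hy y' hy' => ?_)
        (prod_nonneg fun k _ => hZ1 k)
      obtain ⟨a, ha, rfl⟩ := mem_image.1 hy
      obtain ⟨b, hb, rfl⟩ := mem_image.1 hy'
      exact h1 j a (hB ha) b (hB hb) (h a ha b hb)
  have := key N 0 (zero_add N) 𝒜 subset_rfl fun _ _ _ _ i hi => by omega
  simpa only [← range_eq_Ico] using this

theorem theta {l κ t : ℝ} (hκ : 0 < κ) (ht : 0 < t) (h : t ≤ l * κ ^ 2 / 4)
    (W : Finset ℝ) (hW : ∀ y ∈ W, ∀ y' ∈ W, ∃ n : ℤ, y - y' = κ * n) :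
    ∑ y ∈ W, Real.exp (-(l * y ^ 2)) ≤ 1 + 2 / (Real.exp t - 1) := by
  classical
  set x := Real.exp (-t) with hx
  have x0 : 0 < x := Real.exp_pos _
  have x1 : x < 1 := Real.exp_lt_one_iff.2 (by linarith)
  have hs : HasSum (fun n : ℤ => x ^ n.natAbs) (x * (1 - x)⁻¹ + x ^ (0 : ℤ).natAbs + x * (1 - x)⁻¹) := by
    have g := (hasSum_geometric_of_lt_one x0.le x1).mul_left x
    refine HasSum.of_add_one_of_neg_add_one (f := fun n : ℤ => x ^ n.natAbs) ?_ ?_
    · refine g.congr_fun fun n => ?_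
      rw [show ((n : ℤ) + 1).natAbs = n + 1 by omega, pow_succ']
    · refine g.congr_fun fun n => ?_
      rw [show (-((n : ℤ) + 1)).natAbs = n + 1 by omega, pow_succ']
  have e0 : x * (1 - x)⁻¹ + x ^ (0 : ℤ).natAbs + x * (1 - x)⁻¹ = 1 + 2 / (Real.exp t - 1) := by
    have e : Real.exp t = x⁻¹ := by rw [hx, Real.exp_neg, inv_inv]
    have : 1 - x ≠ 0 := by linarith
    rw [e]
    simp only [Int.natAbs_zero, pow_zero]
    field_simp
    ring
  have e1 : ∀ y : ℝ, Real.exp (-(l * y ^ 2)) ≤ x ^ (round (y / κ)).natAbs := by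
    intro y
    rw [hx, ← Real.exp_nat_mul, Real.exp_le_exp]
    set n := round (y / κ) with hn
    have e2 : |y / κ - n| ≤ 1 / 2 := abs_sub_round _
    have e3 : (n.natAbs : ℝ) ≤ 4 * (y / κ) ^ 2 := by
      rcases Nat.eq_zero_or_pos n.natAbs with h0 | h0
      · rw [h0, Nat.cast_zero]
        positivity
      · have e4 : (1 : ℝ) ≤ n.natAbs := by exact_mod_cast h0
        have e5 : (n.natAbs : ℝ) = |(n : ℝ)| := by rw [Nat.cast_natAbs, Int.cast_abs]
        have e6 := abs_sub_abs_le_abs_sub (n : ℝ) (y / κ)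
        rw [abs_sub_comm, ← e5] at e6
        rw [← sq_abs]
        nlinarith
    have e4 : l * y ^ 2 = (4 * (y / κ) ^ 2) * (l * κ ^ 2 / 4) := by field_simp
    have e5 := mul_le_mul e3 h ht.le (by positivity)
    linarith
  refine (sum_le_sum fun y _ => e1 y).trans ?_
  rw [← sum_image (f := fun n : ℤ => x ^ n.natAbs) (g := fun y => round (y / κ)), ← e0]
  · exact sum_le_hasSum _ (fun _ _ => by positivity) hs
  · intro y hy y' hy' e
    obtain ⟨n, hn⟩ := hW y hy y' hy'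
    have e2 : y / κ = y' / κ + n := by
      field_simp
      linarith
    simp only [e2, round_add_intCast] at e
    have : n = 0 := by omega
    rw [this] at hn
    simpa [sub_eq_zero] using hn

theorem log_le_tel {ν : ℝ} (hν : 0 < ν) (k : ℕ) :
    Real.log (1 + 2 / (Real.exp (ν * (k + 1)) - 1)) ≤
      40 / ν * (1 / (1 + √(ν * k)) - 1 / (1 + √(ν * (k + 1)))) := by
  set u := √(ν * (k + 1)) with hu
  set v := √(ν * k) with hv
  have u0 : 0 < u := Real.sqrt_pos.2 (by positivity)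
  have v0 : 0 ≤ v := Real.sqrt_nonneg _
  have u2 : u ^ 2 = ν * (k + 1) := Real.sq_sqrt (by positivity)
  have v2 : v ^ 2 = ν * k := Real.sq_sqrt (by positivity)
  have vu : v ≤ u := Real.sqrt_le_sqrt (by nlinarith)
  rw [← u2]
  have e1 : 1 + u ^ 2 + (u ^ 2) ^ 3 / 6 ≤ Real.exp (u ^ 2) := by
    have := Real.sum_le_exp_of_nonneg (x := u ^ 2) (by positivity) 4
    simp only [sum_range_succ, range_zero, sum_empty, Nat.factorial] at this
    norm_num at this
    nlinarith [sq_nonneg (u ^ 2)]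
  have e2 : (u * (1 + u) ^ 2) ^ 2 ≤ 48 * (Real.exp (u ^ 2) - 1) := by
    have f1 : (1 + u) ^ 2 ≤ 2 * (1 + u ^ 2) := by nlinarith [sq_nonneg (u - 1)]
    have f2 : ((1 + u) ^ 2) ^ 2 ≤ (2 * (1 + u ^ 2)) ^ 2 := pow_le_pow_left₀ (by positivity) f1 2
    have f3 : (2 * (1 + u ^ 2)) ^ 2 ≤ 8 * (1 + (u ^ 2) ^ 2) := by nlinarith [sq_nonneg (u ^ 2 - 1)]
    have f4 := mul_le_mul_of_nonneg_left (f2.trans f3) (sq_nonneg u)
    have f5 := sq_nonneg u
    linarith
  set w := u * (1 + u) ^ 2 with hw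
  have w0 : 0 < w := by positivity
  have e3 : 1 + 2 / (Real.exp (u ^ 2) - 1) ≤ (1 + 10 / w) ^ 2 := by
    have f0 : 0 < Real.exp (u ^ 2) - 1 := by nlinarith [sq_pos_of_pos w0]
    have f1 : 2 / (Real.exp (u ^ 2) - 1) ≤ (10 / w) ^ 2 := by
      rw [div_pow, div_le_div_iff₀ f0 (by positivity)]
      linarith
    have f2 : 0 ≤ 10 / w := by positivity
    nlinarith
  have e4 : Real.log (1 + 2 / (Real.exp (u ^ 2) - 1)) ≤ 20 / w := by
    have f0 : 0 < Real.exp (u ^ 2) - 1 := by nlinarith [sq_pos_of_pos w0]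
    refine (Real.log_le_log (by positivity) e3).trans ?_
    have := Real.log_le_sub_one_of_pos (x := 1 + 10 / w) (by positivity)
    rw [Real.log_pow]
    push_cast
    have e : 20 / w = 2 * (10 / w) := by ring
    linarith
  refine e4.trans ?_
  have e5 : ν = (u - v) * (u + v) := by linear_combination v2 - u2
  have e6 : 0 < u - v := by
    rcases (sub_nonneg.2 vu).eq_or_lt with h | h
    · rw [← h, zero_mul] at e5
      linarith
    · exact h
  have e7 : 40 / ν * (1 / (1 + v) - 1 / (1 + u)) = 40 / ((u + v) * ((1 + v) * (1 + u))) := by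
    rw [e5]
    field_simp
    ring
  rw [e7, div_le_div_iff₀ w0 (by positivity), hw]
  have : (u + v) * ((1 + v) * (1 + u)) ≤ (u + u) * ((1 + u) * (1 + u)) := by gcongr
  linarith

theorem sum_log_le {ν : ℝ} (hν : 0 < ν) (N : ℕ) :
    ∑ k ∈ range N, Real.log (1 + 2 / (Real.exp (ν * (k + 1)) - 1)) ≤ 40 / ν := by
  refine (sum_le_sum fun k _ => log_le_tel hν k).trans ?_
  have := sum_range_sub' (fun k : ℕ => 1 / (1 + √(ν * k))) N
  push_cast at this
  rw [← mul_sum, this]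
  refine mul_le_of_le_one_right (by positivity) ?_
  have : 0 ≤ 1 / (1 + √(ν * N)) := by positivity
  simp only [mul_zero, Real.sqrt_zero, add_zero, div_one]
  linarith

theorem variance {ι : Type} [DecidableEq ι] (S : Finset ι) (a : ι → ℝ) (b : ℝ) :
    ∑ A ∈ S.powerset, (∑ j ∈ A, a j - (∑ j ∈ S, a j) / 2 + b) ^ 2 =
      2 ^ #S * ((∑ j ∈ S, a j ^ 2) / 4 + b ^ 2) := by
  induction S using Finset.induction_on generalizing b with
  | empty => simp
  | insert i S hi ih =>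
    rw [sum_powerset_insert hi, sum_insert hi, sum_insert hi, card_insert_of_notMem hi]
    have e1 := ih (b - a i / 2)
    have e2 := ih (b + a i / 2)
    have e3 : ∑ A ∈ S.powerset, (∑ j ∈ A, a j - (a i + ∑ j ∈ S, a j) / 2 + b) ^ 2 =
        ∑ A ∈ S.powerset, (∑ j ∈ A, a j - (∑ j ∈ S, a j) / 2 + (b - a i / 2)) ^ 2 :=
      sum_congr rfl fun A _ => by ring
    have e4 : ∑ A ∈ S.powerset, (∑ j ∈ insert i A, a j - (a i + ∑ j ∈ S, a j) / 2 + b) ^ 2 =
        ∑ A ∈ S.powerset, (∑ j ∈ A, a j - (∑ j ∈ S, a j) / 2 + (b + a i / 2)) ^ 2 :=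
      sum_congr rfl fun A hA => by
        rw [sum_insert fun h => hi (mem_powerset.1 hA h)]
        ring
    rw [e3, e4, e1, e2]
    ring

theorem gibbs {ι : Type} [DecidableEq ι] (S : Finset ι) (σ : ℕ → ι → ℝ) (l κ t : ℕ → ℝ)
    (hκ : ∀ k, 0 < κ k) (ht : ∀ k, 0 < t k) (h : ∀ k, t k ≤ l k * κ k ^ 2 / 4)
    (h1 : ∀ k, ∀ A ⊆ S, ∀ B ⊆ S, (∀ j < k, ∑ i ∈ A, σ j i = ∑ i ∈ B, σ j i) →
      ∃ n : ℤ, ∑ i ∈ A, σ k i - ∑ i ∈ B, σ k i = κ k * n) (N : ℕ)
    (h2 : ∀ A ⊆ S, ∀ B ⊆ S, (∀ j < N, ∑ i ∈ A, σ j i = ∑ i ∈ B, σ j i) → A = B) :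
    #S * Real.log 2 ≤ ∑ k ∈ range N, l k * ((∑ i ∈ S, σ k i ^ 2) / 4) +
      ∑ k ∈ range N, Real.log (1 + 2 / (Real.exp (t k) - 1)) := by
  set Y : ℕ → Finset ι → ℝ := fun k A => ∑ i ∈ A, σ k i - (∑ i ∈ S, σ k i) / 2 with hY
  have hp : ∀ k, 0 < 1 + 2 / (Real.exp (t k) - 1) := fun k => by
    have := Real.add_one_lt_exp (ht k).ne'
    have : 0 < Real.exp (t k) - 1 := by linarith [ht k]
    positivity
  have e1 := tree Y (fun k y => Real.exp (-(l k * y ^ 2))) κ
    (fun k => 1 + 2 / (Real.exp (t k) - 1)) (fun _ _ => (Real.exp_pos _).le) (fun k => (hp k).le)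
    (fun k => theta (hκ k) (ht k) (h k)) S.powerset
    (fun k A hA B hB e => by
      obtain ⟨n, hn⟩ := h1 k A (mem_powerset.1 hA) B (mem_powerset.1 hB) fun j hj => by
        simpa [hY] using e j hj
      exact ⟨n, by rw [← hn, hY]; ring⟩) N
    fun A hA B hB e => h2 A (mem_powerset.1 hA) B (mem_powerset.1 hB) fun j hj => by
      simpa [hY] using e j hj
  set m := ∑ k ∈ range N, l k * ((∑ i ∈ S, σ k i ^ 2) / 4) with hm
  have e2 : ∀ A ∈ S.powerset, Real.exp (-m) * (1 + m - ∑ k ∈ range N, l k * Y k A ^ 2) ≤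
      ∏ k ∈ range N, Real.exp (-(l k * Y k A ^ 2)) := fun A _ => by
    rw [← Real.exp_sum, sum_neg_distrib,
      show -∑ k ∈ range N, l k * Y k A ^ 2 = -m + (m - ∑ k ∈ range N, l k * Y k A ^ 2) by ring,
      Real.exp_add]
    refine mul_le_mul_of_nonneg_left ?_ (Real.exp_pos _).le
    linarith [Real.add_one_le_exp (m - ∑ k ∈ range N, l k * Y k A ^ 2)]
  have e3 : ∑ A ∈ S.powerset, ∑ k ∈ range N, l k * Y k A ^ 2 = 2 ^ #S * m := by
    rw [sum_comm, hm, mul_sum]
    refine sum_congr rfl fun k _ => ?_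
    have := variance S (σ k) 0
    simp only [add_zero] at this
    rw [← mul_sum, this]
    ring
  have e4 := (sum_le_sum e2).trans e1
  rw [← mul_sum, sum_sub_distrib, e3, sum_const, card_powerset, nsmul_eq_mul] at e4
  push_cast at e4
  have e5 : Real.exp (-m) * (2 ^ #S * (1 + m) - 2 ^ #S * m) = Real.exp (-m) * 2 ^ #S := by ring
  rw [e5] at e4
  have e6 := Real.log_le_log (by positivity) e4
  rw [Real.log_mul (by positivity) (by positivity), Real.log_exp, Real.log_pow,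
    Real.log_prod fun k _ => (hp k).ne'] at e6
  linarith


theorem hasSum_cos {ρ : ℝ} (h0 : 0 ≤ ρ) (h1 : ρ < 1) (α : ℝ) :
    HasSum (fun k : ℕ => ρ ^ (k + 1) * Real.cos ((k + 1) * α) / (k + 1))
      (-(Real.log (1 - 2 * ρ * Real.cos α + ρ ^ 2) / 2)) := by
  have hz : ‖(ρ : ℂ) * Complex.exp (α * Complex.I)‖ < 1 := by
    rwa [norm_mul, Complex.norm_exp_ofReal_mul_I, mul_one, Complex.norm_real, Real.norm_of_nonneg h0]
  have h := Complex.reCLM.hasSum (Complex.hasSum_taylorSeries_neg_log' hz)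
  have e1 : ‖1 - (ρ : ℂ) * Complex.exp (α * Complex.I)‖ ^ 2 =
      1 - 2 * ρ * Real.cos α + ρ ^ 2 := by
    rw [Complex.sq_norm, Complex.normSq_apply]
    simp only [Complex.sub_re, Complex.one_re, Complex.re_ofReal_mul, Complex.exp_ofReal_mul_I_re,
      Complex.sub_im, Complex.one_im, Complex.im_ofReal_mul, Complex.exp_ofReal_mul_I_im]
    linear_combination ρ ^ 2 * Real.cos_sq_add_sin_sq α
  rw [← e1, Real.log_pow]
  convert h using 1
  · ext k
    have e2 : ((ρ : ℂ) * Complex.exp (α * Complex.I)) ^ (k + 1) / (k + 1) =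
        ((ρ ^ (k + 1) / (k + 1) : ℝ) : ℂ) * Complex.exp ((((k + 1) * α : ℝ) : ℂ) * Complex.I) := by
      rw [mul_pow, ← Complex.exp_nat_mul]
      push_cast
      ring_nf
    rw [Complex.reCLM_apply, e2, Complex.re_ofReal_mul, Complex.exp_ofReal_mul_I_re]
    ring
  · rw [Complex.reCLM_apply, Complex.neg_re, Complex.log_re]
    push_cast
    ring

theorem energy (W : Finset ℝ) (φ : ℝ → ℝ) {c R : ℝ} (hR : 1 ≤ R)
    (hW : ∀ t ∈ W, t = c + 2 * R * Real.cos (φ t))
    (hD : 0 ≤ ∑ t ∈ W, ∑ t' ∈ W.erase t, Real.log |t - t'|) {d N : ℕ} (hd : #W ≤ d) (hN : d ≤ N)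
    (hN1 : 1 ≤ N) (hRN : N * Real.log R ≤ 1) :
    ∑ k ∈ range N, (∑ t ∈ W, Real.cos ((k + 1) * φ t)) ^ 2 / (k + 1) ≤
      2 * d + 2 * d * Real.log (2 * N) := by
  have hN' : (1 : ℝ) ≤ N := by exact_mod_cast hN1
  set η : ℝ := 1 / (2 * N) with hη
  have η0 : 0 < η := by positivity
  have η1 : η ≤ 1 / 2 := by
    rw [hη]
    gcongr
    linarith
  have ηN : η * N = 1 / 2 := by
    rw [hη]
    field_simp
  set ρ : ℝ := 1 - η with hρ
  have ρ0 : 0 < ρ := by linarith
  set g : ℝ → ℝ := fun α => -(Real.log (1 - 2 * ρ * Real.cos α + ρ ^ 2) / 2) with hg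
  have h1 : HasSum (fun k : ℕ => 2 * ρ ^ (k + 1) * ((∑ t ∈ W, Real.cos ((k + 1) * φ t)) ^ 2 /
      (k + 1))) (∑ t ∈ W, ∑ t' ∈ W, (g (φ t - φ t') + g (φ t + φ t'))) := by
    have := hasSum_sum (s := W) fun t _ => hasSum_sum (s := W) fun t' _ =>
      (hasSum_cos ρ0.le (by linarith) (φ t - φ t')).add (hasSum_cos ρ0.le (by linarith) (φ t + φ t'))
    refine this.congr_fun fun k => ?_
    rw [sq, sum_mul_sum, sum_div, mul_sum]
    refine sum_congr rfl fun t _ => ?_
    rw [sum_div, mul_sum]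
    refine sum_congr rfl fun t' _ => ?_
    rw [mul_sub, mul_add, Real.cos_sub, Real.cos_add]
    ring
  have h2 : ∑ k ∈ range N, (∑ t ∈ W, Real.cos ((k + 1) * φ t)) ^ 2 / (k + 1) ≤
      ∑ t ∈ W, ∑ t' ∈ W, (g (φ t - φ t') + g (φ t + φ t')) := by
    refine le_trans (sum_le_sum fun k hk => ?_) (sum_le_hasSum (range N) (fun _ _ => by positivity) h1)
    refine le_mul_of_one_le_left (by positivity) ?_
    have e1 := one_add_mul_le_pow (a := -η) (by linarith) (k + 1)
    have e2 : ((k + 1 : ℕ) : ℝ) ≤ N := by exact_mod_cast mem_range.1 hk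
    rw [← sub_eq_add_neg] at e1
    nlinarith
  have h3 : ∀ α, ρ * (2 - 2 * Real.cos α) + η ^ 2 = 1 - 2 * ρ * Real.cos α + ρ ^ 2 := fun α => by
    rw [hρ]
    ring
  have h4 : ∀ α, 0 ≤ ρ * (2 - 2 * Real.cos α) := fun α =>
    mul_nonneg ρ0.le (by linarith [Real.cos_le_one α])
  have h5 : ∀ α, g α ≤ Real.log (2 * N) := fun α => by
    have e1 : Real.log (η ^ 2) ≤ Real.log (1 - 2 * ρ * Real.cos α + ρ ^ 2) :=
      Real.log_le_log (by positivity) (by linarith [h3 α, h4 α])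
    rw [Real.log_pow, hη, one_div, Real.log_inv] at e1
    simp only [hg]
    push_cast at e1
    linarith
  have h6 : -Real.log ρ + Real.log R ≤ 2 / N := by
    have e1 := Real.one_sub_inv_le_log_of_pos ρ0
    have e2 : ρ⁻¹ ≤ 1 + 1 / N := by
      rw [inv_le_iff_one_le_mul₀ ρ0, show 1 / (N : ℝ) = 2 * η by rw [hη]; field_simp, hρ]
      nlinarith
    have e3 : Real.log R ≤ 1 / N := by
      rw [le_div_iff₀ (by linarith)]
      linarith
    have e4 : 2 / (N : ℝ) = 1 / N + 1 / N := by ring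
    linarith
  have h7 : ∀ t ∈ W, ∀ t' ∈ W.erase t,
      g (φ t - φ t') + g (φ t + φ t') ≤ 2 / N - Real.log |t - t'| := fun t ht t' ht' => by
    have e0 : 0 < |t - t'| := abs_pos.2 (sub_ne_zero.2 (ne_of_mem_erase ht').symm)
    have e1 : t - t' = R * (2 * Real.cos (φ t) - 2 * Real.cos (φ t')) := by
      linear_combination hW t ht - hW t' (mem_of_mem_erase ht')
    have e2 : (ρ * |t - t'| / R) ^ 2 =
        (ρ * (2 - 2 * Real.cos (φ t - φ t'))) * (ρ * (2 - 2 * Real.cos (φ t + φ t'))) := by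
      rw [div_pow, mul_pow, sq_abs, e1, Real.cos_sub, Real.cos_add]
      have : R ≠ 0 := by linarith
      field_simp
      linear_combination (Real.sin (φ t') ^ 2) * Real.cos_sq_add_sin_sq (φ t) +
        (1 - Real.cos (φ t) ^ 2) * Real.cos_sq_add_sin_sq (φ t')
    have p1 : 0 < 1 - 2 * ρ * Real.cos (φ t - φ t') + ρ ^ 2 := by
      rw [← h3]
      exact add_pos_of_nonneg_of_pos (h4 _) (by positivity)
    have p2 : 0 < 1 - 2 * ρ * Real.cos (φ t + φ t') + ρ ^ 2 := by
      rw [← h3]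
      exact add_pos_of_nonneg_of_pos (h4 _) (by positivity)
    have e3 : (ρ * |t - t'| / R) ^ 2 ≤ (1 - 2 * ρ * Real.cos (φ t - φ t') + ρ ^ 2) *
        (1 - 2 * ρ * Real.cos (φ t + φ t') + ρ ^ 2) := by
      rw [e2, ← h3, ← h3]
      exact mul_le_mul (le_add_of_nonneg_right (sq_nonneg _)) (le_add_of_nonneg_right (sq_nonneg _))
        (h4 _) (add_nonneg (h4 _) (sq_nonneg _))
    have e4 := Real.log_le_log (by positivity) e3
    rw [Real.log_mul p1.ne' p2.ne', Real.log_pow, Real.log_div (by positivity) (by linarith),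
      Real.log_mul ρ0.ne' e0.ne'] at e4
    simp only [hg]
    push_cast at e4
    linarith
  have hd' : (#W : ℝ) ≤ d := by exact_mod_cast hd
  have h8 : ∀ t ∈ W, ∑ t' ∈ W, (g (φ t - φ t') + g (φ t + φ t')) ≤
      (2 + 2 * Real.log (2 * N)) - ∑ t' ∈ W.erase t, Real.log |t - t'| := fun t ht => by
    rw [← add_sum_erase _ _ ht]
    have e1 := sum_le_sum (h7 t ht)
    rw [sum_sub_distrib, sum_const, nsmul_eq_mul] at e1
    have e2 : (#(W.erase t) : ℝ) ≤ N := by exact_mod_cast card_erase_le.trans (hd.trans hN)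
    have e3 : (#(W.erase t) : ℝ) * (2 / N) ≤ 2 := by
      rw [← mul_div_assoc, div_le_iff₀ (by linarith)]
      linarith
    linarith [h5 (φ t - φ t), h5 (φ t + φ t)]
  have h9 := sum_le_sum h8
  rw [sum_sub_distrib, sum_const, nsmul_eq_mul] at h9
  have h10 : 0 ≤ Real.log (2 * N) := Real.log_nonneg (by linarith)
  have h11 := mul_le_mul_of_nonneg_right hd' (by linarith : 0 ≤ 2 + 2 * Real.log (2 * N))
  linarith

theorem roots_facts {P : ℤ[X]} (hm : P.Monic) (hi : Irreducible P)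
    (hc : (P.aroots ℝ).card = P.natDegree) : IsI (P.aroots ℝ) ∧ ∃ W : Finset ℝ,
      W.val = P.aroots ℝ ∧ 0 ≤ ∑ t ∈ W, ∑ t' ∈ W.erase t, Real.log |t - t'| := by
  set f := P.map (algebraMap ℤ ℝ) with hf
  have hr : P.aroots ℝ = f.roots := rfl
  have fm : f.Monic := hm.map _
  have fd : f.natDegree = P.natDegree := hm.natDegree_map _
  have fs : f.Splits := splits_iff_card_roots.2 (by rw [← hr, hc, fd])
  have hs : f.Separable := by
    have h1 := (hm.irreducible_iff_irreducible_map_fraction_map (K := ℚ)).1 hi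
    have h2 := h1.separable.map (f := algebraMap ℚ ℝ)
    rwa [Polynomial.map_map, ← IsScalarTower.algebraMap_eq] at h2
  refine ⟨⟨reflect P.natDegree P, ?_⟩, ⟨f.roots, nodup_roots hs⟩, rfl, ?_⟩
  · rw [← ET_reflect, hc, hr, ← fs.eq_prod_roots_of_monic fm, ← reflect_map]
    rfl
  · set W : Finset ℝ := ⟨f.roots, nodup_roots hs⟩ with hW
    have h1 := resultant_ne_zero _ _ hs
    have h2 := resultant_eq_prod_eval f (derivative f) _ le_rfl fs
    have h3 : resultant f (derivative f) = ((resultant P (derivative P) f.natDegree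
        (derivative f).natDegree : ℤ) : ℝ) := by
      rw [← eq_intCast (algebraMap ℤ ℝ), ← resultant_map_map, ← derivative_map]
    have h4 : 1 ≤ |resultant f (derivative f)| := by
      rw [h3] at h1 ⊢
      exact_mod_cast Int.one_le_abs (by exact_mod_cast h1)
    have h5 : resultant f (derivative f) = ∏ t ∈ W, ∏ t' ∈ W.erase t, (t - t') := by
      rw [h2, fm.leadingCoeff, one_pow, one_mul]
      exact prod_congr (s₁ := W) rfl fun t ht => fs.eval_root_derivative fm ht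
    have h6 : ∀ t ∈ W, ∀ t' ∈ W.erase t, |t - t'| ≠ 0 := fun t _ t' ht' =>
      abs_ne_zero.2 (sub_ne_zero.2 (ne_of_mem_erase ht').symm)
    have h7 := Real.log_nonneg h4
    rw [h5, abs_prod, Real.log_prod fun t ht => by
      rw [abs_prod]
      exact prod_ne_zero_iff.2 (h6 t ht)] at h7
    refine h7.trans (le_of_eq (sum_congr rfl fun t ht => ?_))
    rw [abs_prod, Real.log_prod (h6 t ht)]

theorem sub_of_sum_eq {A B : Finset ℤ[X]}
    (hA : ∀ P ∈ A, P.Monic ∧ Irreducible P ∧ (P.aroots ℝ).card = P.natDegree)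
    (hB : ∀ P ∈ B, P.Monic ∧ Irreducible P)
    (h : ∑ P ∈ A, P.aroots ℝ = ∑ P ∈ B, P.aroots ℝ) : A ⊆ B := by
  intro P hP
  obtain ⟨hm, hi, hc⟩ := hA P hP
  have key : ∀ {P : ℤ[X]} {t : ℝ}, P.Monic → Irreducible P → t ∈ P.aroots ℝ →
      P.map (algebraMap ℤ ℚ) = minpoly ℚ t := fun hm hi ht =>
    minpoly.eq_of_irreducible_of_monic
      ((hm.irreducible_iff_irreducible_map_fraction_map (K := ℚ)).1 hi)
      (by rw [aeval_map_algebraMap]; exact (mem_aroots.1 ht).2) (hm.map _)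
  obtain ⟨t, ht⟩ := Multiset.card_pos_iff_exists_mem.1
    (hc ▸ hm.natDegree_pos_of_not_isUnit hi.not_isUnit : 0 < (P.aroots ℝ).card)
  have h1 : t ∈ ∑ P ∈ B, P.aroots ℝ := h ▸ Multiset.mem_sum.2 ⟨P, hP, ht⟩
  obtain ⟨P', hP', ht'⟩ := Multiset.mem_sum.1 h1
  have h2 := (key hm hi ht).trans (key (hB P' hP').1 (hB P' hP').2 ht').symm
  rwa [map_injective _ (FaithfulSMul.algebraMap_injective ℤ ℚ) h2]


/-- Chebyshev polynomials of the interval with centre `c` and length `4 R` -/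
noncomputable def Qc (c R : ℝ) (k : ℕ) : ℝ[X] :=
  (Chebyshev.T ℝ k).comp (C (2 * R)⁻¹ * (X - C c))

theorem Qc_deg (c : ℝ) {R : ℝ} (hR : 0 < R) (k : ℕ) :
    (Qc c R k).natDegree = k ∧ (Qc c R k).coeff k = 2 ^ (k - 1) * (2 * R)⁻¹ ^ k := by
  have h0 : (2 * R)⁻¹ ≠ 0 := by positivity
  have h1 : (C (2 * R)⁻¹ * (X - C c)).natDegree = 1 := by
    rw [natDegree_C_mul h0, natDegree_X_sub_C]
  have h2 : (Qc c R k).natDegree = k := by
    rw [Qc, natDegree_comp, h1, Chebyshev.natDegree_T]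
    simp
  refine ⟨h2, ?_⟩
  have h3 : (Qc c R k).coeff k = (Qc c R k).leadingCoeff := by rw [leadingCoeff, h2]
  rw [h3, Qc, leadingCoeff_comp (by omega), Chebyshev.leadingCoeff_T, Chebyshev.natDegree_T]
  simp

theorem main_ineq (S : Finset ℤ[X]) {c R : ℝ} (hR : 1 ≤ R) {d : ℕ} (hd : 1 ≤ d) (hS1 : 1 ≤ #S)
    (hRN : R ^ (#S * d) ≤ 2)
    (hS : ∀ P ∈ S, P.Monic ∧ Irreducible P ∧ P.natDegree ≤ d ∧
      (P.aroots ℝ).card = P.natDegree ∧ ∀ y ∈ P.aroots ℝ, c - 2 * R ≤ y ∧ y ≤ c + 2 * R) :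
    (#S : ℝ) ≤ 12000 * d * (1 + Real.log (2 * (#S * d : ℕ))) := by
  classical
  set N := #S * d with hN
  have R0 : 0 < R := by linarith
  have hdN : d ≤ N := Nat.le_mul_of_pos_left _ hS1
  have hN1 : (1 : ℝ) ≤ N := by exact_mod_cast hd.trans hdN
  have hd' : (1 : ℝ) ≤ d := by exact_mod_cast hd
  have hr : (1 : ℝ) ≤ #S := by exact_mod_cast hS1
  have hL : 0 ≤ Real.log (2 * N) := Real.log_nonneg (by linarith)
  set B : ℝ := 2 * d + 2 * d * Real.log (2 * N) with hB
  have B2 : 2 + 2 * Real.log (2 * N) ≤ B := by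
    have := mul_le_mul_of_nonneg_right hd' hL
    linarith
  have B0 : 0 < B := by linarith
  set σ : ℕ → ℤ[X] → ℝ := fun k P => tr (Qc c R k) (P.aroots ℝ) with hσ
  set κ : ℕ → ℝ := fun k => (Qc c R k).coeff k * max (k : ℝ) 1 with hκ
  set l : ℕ → ℝ := fun k => if k = 0 then 1 / (#S * d ^ 2) else 1 / (B * k) with hl
  have q1 : ∀ k, (Qc c R k).natDegree ≤ k := fun k => (Qc_deg c R0 k).1.le
  have q2 : ∀ k, 0 < (Qc c R k).coeff k := fun k => by
    rw [(Qc_deg c R0 k).2]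
    positivity
  have κ0 : ∀ k, 0 < κ k := fun k => mul_pos (q2 k) (by positivity)
  have l0 : ∀ k, 0 < l k := fun k => by
    simp only [hl]
    split_ifs with h
    · positivity
    · have := Nat.pos_of_ne_zero h
      positivity
  have hI : ∀ A ⊆ S, IsI (∑ P ∈ A, P.aroots ℝ) := fun A hA => IsI.sum _ _ fun P hP =>
    (roots_facts (hS P (hA hP)).1 (hS P (hA hP)).2.1 (hS P (hA hP)).2.2.2.1).1
  have G := gibbs S σ l κ (fun k => l k * κ k ^ 2 / 4) κ0 (fun k => by have := l0 k; have := κ0 k; positivity)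
    (fun _ => le_rfl) (fun k A hA A' hA' h => by
      simp only [hσ, ← tr_sum] at h ⊢
      exact lattice q1 (fun k => (q2 k).ne') (hI A hA) (hI A' hA') k h) (N + 1)
    fun A hA A' hA' h => by
      simp only [hσ, ← tr_sum] at h
      have e1 : (∑ P ∈ A, P.aroots ℝ).card ≤ N := by
        rw [Multiset.card_sum]
        refine (sum_le_card_nsmul _ _ d fun P hP => ?_).trans
          (Nat.mul_le_mul_right d (card_le_card hA))
        exact (hS P (hA hP)).2.2.2.1.trans_le (hS P (hA hP)).2.2.1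
      have e2 := inj q1 (fun k => (q2 k).ne') e1 h
      exact Subset.antisymm
        (sub_of_sum_eq (fun P hP => ⟨(hS P (hA hP)).1, (hS P (hA hP)).2.1, (hS P (hA hP)).2.2.2.1⟩)
          (fun P hP => ⟨(hS P (hA' hP)).1, (hS P (hA' hP)).2.1⟩) e2)
        (sub_of_sum_eq (fun P hP => ⟨(hS P (hA' hP)).1, (hS P (hA' hP)).2.1, (hS P (hA' hP)).2.2.2.1⟩)
          (fun P hP => ⟨(hS P (hA hP)).1, (hS P (hA hP)).2.1⟩) e2.symm)
  rw [sum_range_succ', sum_range_succ'] at G
  have h1 : ∀ P ∈ S, ∑ k ∈ range N, σ (k + 1) P ^ 2 / (k + 1) ≤ B := fun P hP => by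
    obtain ⟨hm, hi, hdeg, hc, hy⟩ := hS P hP
    obtain ⟨W, hW, hD⟩ := (roots_facts hm hi hc).2
    have e0 : ∀ t ∈ W, Real.cos (Real.arccos ((2 * R)⁻¹ * (t - c))) = (2 * R)⁻¹ * (t - c) :=
      fun t ht => by
        obtain ⟨f1, f2⟩ := hy t (hW ▸ ht)
        refine Real.cos_arccos ?_ ?_
        · rw [le_inv_mul_iff₀ (by linarith)]
          linarith
        · rw [inv_mul_le_iff₀ (by linarith)]
          linarith
    have e1 := energy W (fun t => Real.arccos ((2 * R)⁻¹ * (t - c))) (c := c) hR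
      (fun t ht => by rw [e0 t ht]; field_simp; ring) hD (d := d) (N := N)
      (by rw [Finset.card, hW, hc]; exact hdeg) hdN (hd.trans hdN) (by
        have := Real.log_le_log (by positivity) hRN
        rw [Real.log_pow] at this
        linarith [Real.log_two_lt_d9])
    refine le_trans (le_of_eq (sum_congr rfl fun k _ => ?_)) e1
    congr 2
    simp only [hσ, tr, ← hW]
    refine sum_congr (s₁ := W) rfl fun t ht => ?_
    have := Chebyshev.T_real_cos (Real.arccos ((2 * R)⁻¹ * (t - c))) (k + 1 : ℕ)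
    rw [e0 t ht] at this
    simpa [Qc, eval_comp] using this
  have h2 : ∑ k ∈ range N, l (k + 1) * ((∑ P ∈ S, σ (k + 1) P ^ 2) / 4) ≤ #S / 4 := by
    have e1 : ∑ k ∈ range N, l (k + 1) * ((∑ P ∈ S, σ (k + 1) P ^ 2) / 4) =
        (∑ P ∈ S, ∑ k ∈ range N, σ (k + 1) P ^ 2 / (k + 1)) / (4 * B) := by
      rw [sum_comm, sum_div]
      refine sum_congr rfl fun k _ => ?_
      simp only [hl, Nat.succ_ne_zero, if_false]
      rw [← sum_div]
      push_cast
      field_simp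
    have e2 := sum_le_card_nsmul _ _ _ h1
    rw [e1, div_le_iff₀ (by positivity)]
    rw [nsmul_eq_mul] at e2
    linarith
  have h3 : l 0 * ((∑ P ∈ S, σ 0 P ^ 2) / 4) ≤ 1 / 4 := by
    have e1 : ∀ P ∈ S, σ 0 P ^ 2 ≤ (d : ℝ) ^ 2 := fun P hP => by
      have e2 : σ 0 P = P.natDegree := by simp [hσ, tr, Qc, (hS P hP).2.2.2.1]
      rw [e2]
      exact_mod_cast Nat.pow_le_pow_left (hS P hP).2.2.1 2
    have e2 := sum_le_card_nsmul _ _ _ e1
    rw [nsmul_eq_mul] at e2
    simp only [hl, if_true]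
    rw [one_div_mul_eq_div, div_le_iff₀ (by positivity)]
    linarith
  have mono : ∀ {s t : ℝ}, 0 < s → s ≤ t → Real.log (1 + 2 / (Real.exp t - 1)) ≤
      Real.log (1 + 2 / (Real.exp s - 1)) := fun {s t} hs hst => by
    have e1 : 0 < Real.exp s - 1 := by linarith [Real.add_one_le_exp s]
    have e2 : Real.exp s - 1 ≤ Real.exp t - 1 := by linarith [Real.exp_le_exp.2 hst]
    have e3 : 0 < Real.exp t - 1 := by linarith
    refine Real.log_le_log (by positivity) ?_
    gcongr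
  have h4 : ∑ k ∈ range N, Real.log (1 + 2 / (Real.exp (l (k + 1) * κ (k + 1) ^ 2 / 4) - 1)) ≤
      2560 * B := by
    refine (sum_le_sum fun (k : ℕ) hk =>
      mono (s := 1 / (64 * B) * ((k : ℝ) + 1)) (by positivity) ?_).trans
      ((sum_log_le (ν := 1 / (64 * B)) (by positivity) N).trans (le_of_eq (by field_simp; norm_num)))
    have e1 : R ^ (k + 1) ≤ 2 := (pow_le_pow_right₀ hR (mem_range.1 hk)).trans hRN
    have e2 : ((k : ℝ) + 1) / 4 ≤ κ (k + 1) := by
      simp only [hκ, (Qc_deg c R0 _).2, Nat.add_sub_cancel]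
      push_cast
      rw [max_eq_left (by linarith [(Nat.cast_nonneg k : (0 : ℝ) ≤ k)]), inv_pow, mul_pow, pow_succ 2]
      have e3 : (2 : ℝ) ^ k * (2 ^ k * 2 * R ^ (k + 1))⁻¹ * (k + 1) =
          (k + 1) / (2 * R ^ (k + 1)) := by field_simp
      rw [e3]
      gcongr
      linarith
    have e4 := pow_le_pow_left₀ (by positivity) e2 2
    simp only [hl, Nat.succ_ne_zero, if_false]
    push_cast
    refine le_trans (le_of_eq ?_) (div_le_div_of_nonneg_right
      (mul_le_mul_of_nonneg_left e4 (by positivity)) (by norm_num))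
    field_simp
    norm_num
  have h5 : Real.log (1 + 2 / (Real.exp (l 0 * κ 0 ^ 2 / 4) - 1)) ≤ 4 * Real.log (2 * N) := by
    have e1 : l 0 * κ 0 ^ 2 / 4 = 1 / (4 * (#S * d ^ 2)) := by
      simp only [hl, hκ, (Qc_deg c R0 _).2, if_true]
      simp
      ring
    rw [e1]
    have e2 := Real.add_one_le_exp (1 / (4 * (#S * (d : ℝ) ^ 2)))
    have e3 : (0 : ℝ) < 1 / (4 * (#S * (d : ℝ) ^ 2)) := by positivity
    have e4 : 0 < Real.exp (1 / (4 * (#S * (d : ℝ) ^ 2))) - 1 := by linarith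
    have e5 : 2 / (Real.exp (1 / (4 * (#S * (d : ℝ) ^ 2))) - 1) ≤ 8 * (#S * (d : ℝ) ^ 2) := by
      refine (div_le_div_of_nonneg_left (by norm_num) e3 (by linarith)).trans (le_of_eq ?_)
      field_simp
      norm_num
    have e6 : (#S * (d : ℝ) ^ 2) ≤ (N : ℝ) ^ 4 := by
      have f1 : (#S * (d : ℝ) ^ 2) ≤ (N : ℝ) ^ 2 := by
        rw [hN]
        push_cast
        rw [mul_pow]
        gcongr
        exact le_self_pow₀ hr (by norm_num)
      exact f1.trans (pow_le_pow_right₀ hN1 (by norm_num))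
    have e7 := one_le_pow₀ (n := 4) hN1
    rw [show (4 : ℝ) * Real.log (2 * N) = Real.log ((2 * N) ^ 4) by rw [Real.log_pow]; norm_num]
    exact Real.log_le_log (by positivity) (by linarith)
  have h6 := mul_le_mul_of_nonneg_left Real.log_two_gt_d9.le (by linarith : (0 : ℝ) ≤ #S)
  linarith

end Pool.Agent.MP_108ce6_nt.Cnt
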