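import Mathlib
import Pool.Agent.MP_108ce6_nt.Bnd

/-! Square roots of products of linear factors have eventually bounded moment functionals. -/

namespace Pool.Agent.MP_108ce6_nt

open Finset

/-- The linear factor `1 - a X`. -/
noncomputable def lin (a : ℝ) : PowerSeries ℝ := 1 - PowerSeries.C a * PowerSeries.X

theorem invSqrt (k : ℕ) : ∀ Z : Finset ℝ, Z.card = 2 * k + 2 →
    ∃ (A : PowerSeries ℝ) (K : Set ℝ), PowerSeries.constantCoeff A = 1 ∧
      A ^ 2 * ∏ z ∈ Z, lin z = 1 ∧ BndS K A ∧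
      ∀ x ∈ K, (∏ z ∈ Z, (x - z)) ≤ 0 ∧ (∃ z ∈ Z, x ≤ z) ∧ ∃ z ∈ Z, z ≤ x := by
  have top : ∀ Z : Finset ℝ, 2 ≤ Z.card → ∃ (a b : ℝ) (Z' : Finset ℝ), a < b ∧ (∀ z ∈ Z', z < a) ∧
      Z = insert b (insert a Z') ∧ Z'.card + 2 = Z.card := by
    intro Z hZ
    have h1 : Z.Nonempty := card_pos.1 (by omega)
    have hb := Z.max'_mem h1
    have hc := card_erase_of_mem hb
    have h2 : (Z.erase (Z.max' h1)).Nonempty := card_pos.1 (by omega)
    have ha := (Z.erase (Z.max' h1)).max'_mem h2
    have hc2 := card_erase_of_mem ha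
    refine ⟨(Z.erase (Z.max' h1)).max' h2, Z.max' h1,
      (Z.erase (Z.max' h1)).erase ((Z.erase (Z.max' h1)).max' h2), ?_, ?_, ?_, ?_⟩
    · exact lt_of_le_of_ne (Z.le_max' _ (mem_of_mem_erase ha)) (ne_of_mem_erase ha)
    · intro z hz
      exact lt_of_le_of_ne (le_max' _ _ (mem_of_mem_erase hz)) (ne_of_mem_erase hz)
    · rw [insert_erase ha, insert_erase hb]
    · omega
  induction k with
  | zero =>
    intro Z hZ
    obtain ⟨a, b, Z', hab, hZ', rfl, hc⟩ := top Z (by omega)
    have : Z' = ∅ := card_eq_zero.1 (by omega)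
    subst this
    obtain ⟨A, h0, h1, h2⟩ := slit a b hab.le
    have hne : b ∉ insert a (∅ : Finset ℝ) := by simp [hab.ne']
    refine ⟨A, _, h0, ?_, h2, fun x hx => ⟨?_, ⟨b, by simp, hx.2⟩, a, by simp, hx.1⟩⟩
    · rw [prod_insert hne, prod_insert (by simp), prod_empty, lin, lin]
      linear_combination h1
    · rw [prod_insert hne, prod_insert (by simp), prod_empty]
      nlinarith [hx.1, hx.2]
  | succ k ih =>
    intro Z hZ
    obtain ⟨a, b, Z', hab, hZ', rfl, hc⟩ := top Z (by omega)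
    obtain ⟨A', K', h0', h1', h2', h3'⟩ := ih Z' (by omega)
    obtain ⟨A, h0, h1, h2⟩ := slit a b hab.le
    have hne : Z'.Nonempty := card_pos.1 (by omega)
    have ha : a ∉ Z' := fun h => lt_irrefl _ (hZ' a h)
    have hb : b ∉ insert a Z' := by
      simp only [mem_insert, not_or]
      exact ⟨hab.ne', fun h => lt_asymm hab (hZ' b h)⟩
    have hg : 0 < a - Z'.max' hne := sub_pos.2 (hZ' _ (Z'.max'_mem hne))
    refine ⟨A' * A, K' ∪ Set.Icc a b, by simp [h0, h0'], ?_, ?_, ?_⟩
    · rw [prod_insert hb, prod_insert ha]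
      unfold lin at h1' ⊢
      linear_combination (A ^ 2 * ((1 - PowerSeries.C a * PowerSeries.X) *
        (1 - PowerSeries.C b * PowerSeries.X))) * h1' + h1
    · refine BndS.mul (B := |Z'.min' hne| + |b|) h2' h2 hg ?_ ?_
      · intro s hs t ht
        obtain ⟨-, ⟨z, hz, hsz⟩, -⟩ := h3' s hs
        have := Z'.le_max' z hz
        rw [abs_sub_comm]
        exact le_trans (by linarith [ht.1]) (le_abs_self _)
      · have hm := hZ' _ (Z'.min'_mem hne)
        have e1 := neg_abs_le (Z'.min' hne)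
        have e2 := le_abs_self b
        have e3 := abs_nonneg (Z'.min' hne)
        have e4 := abs_nonneg b
        rintro x (hx | hx)
        · obtain ⟨-, ⟨z, hz, hsz⟩, w, hw, hsw⟩ := h3' x hx
          have := Z'.min'_le w hw
          have := hZ' z hz
          rw [abs_le]; constructor <;> linarith
        · rw [abs_le]; constructor <;> linarith [hx.1, hx.2]
    · rintro x (hx | hx)
      · obtain ⟨hp, ⟨z, hz, hsz⟩, w, hw, hsw⟩ := h3' x hx
        refine ⟨?_, ⟨z, by simp [hz], hsz⟩, w, by simp [hw], hsw⟩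
        rw [prod_insert hb, prod_insert ha, ← mul_assoc]
        have := hZ' z hz
        exact mul_nonpos_of_nonneg_of_nonpos (by nlinarith) hp
      · refine ⟨?_, ⟨b, by simp, hx.2⟩, a, by simp, hx.1⟩
        rw [prod_insert hb, prod_insert ha, ← mul_assoc]
        refine mul_nonpos_of_nonpos_of_nonneg (by nlinarith [hx.1, hx.2]) (prod_nonneg fun z hz => ?_)
        linarith [hZ' z hz, hx.1]

/-- Some shift of the coefficient sequence has a bounded moment functional. -/
def Good (K : Set ℝ) (F : PowerSeries ℝ) : Prop :=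
  ∃ m : ℕ, Bnd K fun n => PowerSeries.coeff (n + m) F

theorem Good.mul_lin {K : Set ℝ} {F : PowerSeries ℝ} (h : Good K F) {B : ℝ}
    (hB : ∀ x ∈ K, |x| ≤ B) (t : ℝ) : Good K (F * lin t) := by
  obtain ⟨m, h⟩ := h
  refine ⟨m + 1, ?_⟩
  convert h.lin hB t using 2 with n
  rw [lin, mul_sub, mul_one, map_sub, ← mul_assoc, ← add_assoc, PowerSeries.coeff_succ_mul_X,
    PowerSeries.coeff_mul_C, add_right_comm, mul_comm]

theorem Good.mul_prod {K : Set ℝ} {F : PowerSeries ℝ} (h : Good K F) {B : ℝ}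
    (hB : ∀ x ∈ K, |x| ≤ B) (Y : Multiset ℝ) : Good K (F * (Y.map lin).prod) := by
  induction Y using Multiset.induction_on with
  | empty => simpa using h
  | cons a Y ih =>
    rw [Multiset.map_cons, Multiset.prod_cons, mul_comm (lin a), ← mul_assoc]
    exact ih.mul_lin hB a

theorem multiset_decomp (X : Multiset ℝ) : ∃ (Z : Finset ℝ) (Y : Multiset ℝ), X = Z.val + Y + Y := by
  classical
  induction X using Multiset.induction_on with
  | empty => exact ⟨∅, 0, by simp⟩
  | cons a X ih =>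
    obtain ⟨Z, Y, rfl⟩ := ih
    by_cases h : a ∈ Z
    · refine ⟨Z.erase a, a ::ₘ Y, ?_⟩
      conv_lhs => rw [← insert_erase h, insert_val_of_notMem (notMem_erase a Z)]
      simp only [← Multiset.singleton_add]
      abel
    · refine ⟨insert a Z, Y, ?_⟩
      rw [insert_val_of_notMem h]
      simp only [← Multiset.singleton_add]
      abel

theorem constantCoeff_prod_lin (Y : Multiset ℝ) :
    PowerSeries.constantCoeff (Y.map lin).prod = 1 := by
  induction Y using Multiset.induction_on with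
  | empty => simp
  | cons a Y ih =>
    rw [Multiset.map_cons, Multiset.prod_cons, map_mul, ih]
    simp [lin]

theorem good_sqrt (X : Multiset ℝ) (hcard : Even X.card) (z0 : ℝ) (hz0 : Odd (X.count z0))
    (G : PowerSeries ℝ) (hG0 : PowerSeries.constantCoeff G = 1) (hG : G ^ 2 = (X.map lin).prod)
    (lo hi : ℝ) (hX : ∀ a ∈ X, a ∈ Set.Icc lo hi) :
    Good {x | x ∈ Set.Icc lo hi ∧ (X.map fun a => x - a).prod ≤ 0} G := by
  classical
  obtain ⟨Z, Y, rfl⟩ := multiset_decomp X
  have hZ : z0 ∈ Z := by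
    by_contra h
    rw [Multiset.count_add, Multiset.count_add, Multiset.count_eq_zero_of_notMem h, zero_add] at hz0
    exact Nat.not_odd_iff_even.2 ⟨_, rfl⟩ hz0
  have hc : ∃ k, Z.card = 2 * k + 2 := by
    have h1 := card_pos.2 ⟨z0, hZ⟩
    obtain ⟨r, hr⟩ := hcard
    simp only [Multiset.card_add, card_val] at hr
    exact ⟨Z.card / 2 - 1, by omega⟩
  obtain ⟨k, hk⟩ := hc
  obtain ⟨A, K, h0, h1, h2, h3⟩ := invSqrt k Z hk
  have hKI : ∀ x ∈ K, x ∈ Set.Icc lo hi := fun x hx => by
    obtain ⟨-, ⟨z, hz, hxz⟩, w, hw, hwx⟩ := h3 x hx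
    exact ⟨(hX w (by simp [hw])).1.trans hwx, hxz.trans (hX z (by simp [hz])).2⟩
  have hB : ∀ x ∈ K, |x| ≤ |lo| + |hi| := fun x hx => by
    have := hKI x hx
    rw [abs_le]
    constructor <;> linarith [this.1, this.2, neg_abs_le lo, le_abs_self hi, abs_nonneg lo, abs_nonneg hi]
  have hA : Good K A := ⟨0, h2⟩
  have hH := hA.mul_prod hB (Z.val + Y)
  have hGH : G = A * ((Z.val + Y).map lin).prod := by
    have e : (G - A * ((Z.val + Y).map lin).prod) * (G + A * ((Z.val + Y).map lin).prod) = 0 := by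
      simp only [Multiset.map_add, Multiset.prod_add] at hG ⊢
      have h1' : A ^ 2 * (Z.val.map lin).prod = 1 := h1
      linear_combination hG - (Z.val.map lin).prod * (Y.map lin).prod ^ 2 * h1'
    rcases mul_eq_zero.1 e with e | e
    · exact sub_eq_zero.1 e
    · have := congrArg PowerSeries.constantCoeff e
      rw [map_add, map_mul, hG0, h0, constantCoeff_prod_lin, map_zero] at this
      norm_num at this
  rw [hGH]
  obtain ⟨m, hm⟩ := hH
  refine ⟨m, hm.mono fun x hx => ⟨hKI x hx, ?_⟩⟩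
  simp only [Multiset.map_add, Multiset.prod_add, mul_assoc]
  exact mul_nonpos_of_nonpos_of_nonneg (h3 x hx).1 (mul_self_nonneg _)

end Pool.Agent.MP_108ce6_nt
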