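import Mathlib
import Pool.Agent.MP_108ce6_nt.Sqrt

/-! Integer series with a bounded moment functional on a set of Chebyshev constant below one are
rational; the parity obstruction. -/

namespace Pool.Agent.MP_108ce6_nt

open Polynomial Finset

theorem small_basis {K : Set ℝ} {B : ℝ} (hB1 : 1 ≤ B) (hB : ∀ x ∈ K, |x| ≤ B) {p : ℝ[X]}
    (hp : p.Monic) (hd : 0 < p.natDegree) (hs : ∀ x ∈ K, |p.eval x| ≤ 1 / 2) :
    ∃ (A σ : ℝ) (e : ℕ → ℝ[X]), 0 < A ∧ 0 < σ ∧ σ < 1 ∧ ∀ i, (e i).Monic ∧ (e i).natDegree = i ∧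
      ∀ x ∈ K, |(e i).eval x| ≤ A * σ ^ i := by
  set m := p.natDegree with hm
  set σ : ℝ := (1 / 2 : ℝ) ^ ((m : ℝ)⁻¹) with hσ
  have hσ0 : 0 < σ := by positivity
  have hσ1 : σ < 1 := Real.rpow_lt_one (by norm_num) (by norm_num) (by positivity)
  have hσm : σ ^ m = 1 / 2 := Real.rpow_inv_natCast_pow (by norm_num) hd.ne'
  refine ⟨(B / σ) ^ m, σ, fun i => p ^ (i / m) * X ^ (i % m), by positivity, hσ0, hσ1, fun i =>
    ⟨(hp.pow _).mul (monic_X_pow _), ?_, fun x hx => ?_⟩⟩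
  · rw [(hp.pow _).natDegree_mul (monic_X_pow _), hp.natDegree_pow, natDegree_X_pow, ← hm,
      Nat.div_add_mod']
  · rw [eval_mul, eval_pow, eval_pow, eval_X, abs_mul, abs_pow, abs_pow]
    have h1 : |p.eval x| ^ (i / m) ≤ (σ ^ m) ^ (i / m) := by
      rw [hσm]; exact pow_le_pow_left₀ (abs_nonneg _) (hs x hx) _
    have h2 : |x| ^ (i % m) ≤ (B / σ) ^ m * σ ^ (i % m) := by
      have h3 : 1 ≤ B / σ := by rw [le_div_iff₀ hσ0]; linarith
      calc |x| ^ (i % m) ≤ B ^ (i % m) := pow_le_pow_left₀ (abs_nonneg _) (hB x hx) _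
        _ = (B / σ) ^ (i % m) * σ ^ (i % m) := by rw [← mul_pow, div_mul_cancel₀ _ hσ0.ne']
        _ ≤ _ := by gcongr; exact (Nat.mod_lt _ hd).le
    calc _ ≤ (σ ^ m) ^ (i / m) * ((B / σ) ^ m * σ ^ (i % m)) := by gcongr
      _ = (B / σ) ^ m * σ ^ (m * (i / m) + i % m) := by rw [pow_add, pow_mul]; ring
      _ = _ := by rw [Nat.div_add_mod]

theorem rounding {K : Set ℝ} {A σ : ℝ} {e : ℕ → ℝ[X]} (hσ1 : σ < 1)
    (he : ∀ i, (e i).Monic ∧ (e i).natDegree = i ∧ ∀ x ∈ K, |(e i).eval x| ≤ A * σ ^ i) (n₀ k : ℕ) :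
    ∀ f : ℝ[X], f.degree < (n₀ + k : ℕ) → ∃ (g : ℤ[X]) (r : ℝ[X]), g.degree < (n₀ + k : ℕ) ∧
      r.degree < n₀ ∧ ∀ x ∈ K, |f.eval x - aeval x g - r.eval x| ≤
        A * (σ ^ n₀ - σ ^ (n₀ + k)) / (1 - σ) := by
  induction k with
  | zero => exact fun f hf => ⟨0, f, by simp, by simpa using hf, fun x _ => by simp⟩
  | succ k ih =>
    intro f hf
    set N := n₀ + k with hN
    set a := f.coeff N with ha
    obtain ⟨hm, hd, hs⟩ := he N
    have hf' : (f - C (Int.fract a) * e N - C (⌊a⌋ : ℝ) * X ^ N).degree < ((N : ℕ) : WithBot ℕ) := by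
      rw [degree_lt_iff_coeff_zero] at hf ⊢
      intro j hj
      rw [coeff_sub, coeff_sub, coeff_C_mul, coeff_C_mul, coeff_X_pow]
      rcases hj.eq_or_lt with rfl | hj
      · have : (e N).coeff N = 1 := by have := hm.coeff_natDegree; rwa [hd] at this
        rw [this, if_pos rfl, ← ha, mul_one, mul_one, Int.fract]; ring
      · rw [hf j (by omega), coeff_eq_zero_of_natDegree_lt (by omega), if_neg (by omega)]; ring
    obtain ⟨g, r, hg, hr, h⟩ := ih _ hf'
    refine ⟨g + C ⌊a⌋ * X ^ N, r, ?_, hr, fun x hx => ?_⟩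
    · rw [degree_lt_iff_coeff_zero] at hg ⊢
      intro j hj
      rw [coeff_add, hg j (by omega), coeff_C_mul, coeff_X_pow, if_neg (by omega)]; ring
    · have h1 := h x hx
      have h2 := hs x hx
      have h3 : |Int.fract a * (e N).eval x| ≤ A * σ ^ N := by
        rw [abs_mul, abs_of_nonneg (Int.fract_nonneg a)]
        exact (mul_le_of_le_one_left (abs_nonneg _) (Int.fract_lt_one a).le).trans h2
      have h4 : f.eval x - aeval x (g + C ⌊a⌋ * X ^ N) - r.eval x =
          ((f - C (Int.fract a) * e N - C (⌊a⌋ : ℝ) * X ^ N).eval x - aeval x g - r.eval x)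
            + Int.fract a * (e N).eval x := by
        simp only [map_add, map_mul, aeval_C, map_pow, aeval_X, eval_sub, eval_mul, eval_C, eval_pow,
          eval_X, eq_intCast, map_intCast, eval_intCast, Int.cast_id]
        ring
      rw [h4]
      refine (abs_add_le _ _).trans ((add_le_add h1 h3).trans_eq ?_)
      have : 1 - σ ≠ 0 := by linarith
      rw [← add_assoc, ← hN, pow_succ]
      field_simp
      ring

theorem small_int_poly {K : Set ℝ} {B : ℝ} (hB1 : 1 ≤ B) (hB : ∀ x ∈ K, |x| ≤ B) {A σ : ℝ}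
    {e : ℕ → ℝ[X]} (hA : 0 < A) (hσ0 : 0 < σ) (hσ1 : σ < 1)
    (he : ∀ i, (e i).Monic ∧ (e i).natDegree = i ∧ ∀ x ∈ K, |(e i).eval x| ≤ A * σ ^ i) :
    ∃ v : ℤ[X], v ≠ 0 ∧ ∀ x ∈ K, |aeval x v| ≤ 1 / 2 := by
  have h1σ : 0 < 1 - σ := by linarith
  obtain ⟨n₀, hn₀⟩ := exists_pow_lt_of_lt_one (show 0 < (1 - σ) / (16 * A) by positivity) hσ1
  have hS : A * σ ^ n₀ / (1 - σ) ≤ 1 / 16 := by
    rw [lt_div_iff₀ (by positivity)] at hn₀
    rw [div_le_iff₀ h1σ]; linarith
  have key : ∀ k : ℕ, ∃ (g : ℤ[X]) (r : ℝ[X]), g.Monic ∧ g.natDegree = n₀ + k ∧ r.degree < n₀ ∧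
      ∀ x ∈ K, |aeval x g + r.eval x| ≤ 1 / 8 := by
    intro k
    obtain ⟨hm, hd, hs⟩ := he (n₀ + k)
    have hf : (e (n₀ + k) - X ^ (n₀ + k)).degree < ((n₀ + k : ℕ) : WithBot ℕ) := by
      have := degree_sub_lt (p := e (n₀ + k)) (q := X ^ (n₀ + k))
        (by rw [degree_eq_natDegree hm.ne_zero, hd, degree_X_pow]) hm.ne_zero
        (by rw [hm.leadingCoeff, leadingCoeff_X_pow])
      rwa [degree_eq_natDegree hm.ne_zero, hd] at this
    obtain ⟨g, r, hg, hr, h⟩ := rounding hσ1 he n₀ k _ hf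
    refine ⟨X ^ (n₀ + k) + g, r, monic_X_pow_add hg, ?_, hr, fun x hx => ?_⟩
    · exact natDegree_eq_of_degree_eq_some
        (by rw [degree_add_eq_left_of_degree_lt (by rwa [degree_X_pow]), degree_X_pow])
    · have h1 := h x hx
      have h2 := hs x hx
      have h3 : A * (σ ^ n₀ - σ ^ (n₀ + k)) / (1 - σ) ≤ A * σ ^ n₀ / (1 - σ) := by
        gcongr; linarith [pow_pos hσ0 (n₀ + k)]
      have h4 : A * σ ^ (n₀ + k) ≤ A * σ ^ n₀ / (1 - σ) := by
        rw [le_div_iff₀ h1σ]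
        have : σ ^ (n₀ + k) ≤ σ ^ n₀ := pow_le_pow_of_le_one hσ0.le hσ1.le (by omega)
        have h5 : 0 < A * σ ^ (n₀ + k) := by positivity
        nlinarith
      have h5 : aeval x (X ^ (n₀ + k) + g) + r.eval x = (e (n₀ + k)).eval x -
          ((e (n₀ + k) - X ^ (n₀ + k)).eval x - aeval x g - r.eval x) := by
        simp only [map_add, map_pow, aeval_X, eval_sub, eval_pow, eval_X]; ring
      rw [h5]
      refine (abs_sub _ _).trans ?_
      linarith
  choose g r hgm hgd hr hs using key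
  obtain ⟨Q, hQ⟩ := exists_nat_gt (4 * n₀ * B ^ n₀)
  have hQ0 : (0 : ℝ) < Q := lt_of_le_of_lt (by positivity) hQ
  let Φ : ℕ → Fin n₀ → ℤ := fun k j => ⌊Q * Int.fract ((r k).coeff j)⌋
  have hΦ : Set.MapsTo Φ Set.univ (Set.pi Set.univ fun _ => Set.Icc (0 : ℤ) Q) := by
    intro k _ j _
    have h1 := Int.fract_nonneg ((r k).coeff j)
    have h2 := Int.fract_lt_one ((r k).coeff j)
    refine ⟨Int.floor_nonneg.2 (by positivity), Int.floor_le_iff.2 ?_⟩
    push_cast; nlinarith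
  obtain ⟨k, -, l, -, hkl, hΦe⟩ := Set.infinite_univ.exists_ne_map_eq_of_mapsTo hΦ
    (Set.Finite.pi fun _ => Set.finite_Icc _ _)
  have hr' : ∀ k x, (r k).eval x = ∑ j ∈ range n₀, (r k).coeff j * x ^ j := fun k x => by
    by_cases h0 : r k = 0
    · simp [h0]
    · exact eval_eq_sum_range' ((natDegree_lt_iff_degree_lt h0).2 (hr k)) x
  wlog hlt : l < k generalizing k l
  · exact this l k hkl.symm hΦe.symm (by omega)
  refine ⟨g k - g l + ∑ j ∈ range n₀, C (⌊(r k).coeff j⌋ - ⌊(r l).coeff j⌋) * X ^ j, ?_, fun x hx => ?_⟩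
  · intro h0
    have := congrArg (fun q => q.coeff (n₀ + k)) h0
    simp only [coeff_add, coeff_sub, finset_sum_coeff, coeff_C_mul, coeff_X_pow, coeff_zero] at this
    have e1 : (g k).coeff (n₀ + k) = 1 := by rw [← hgd k]; exact (hgm k).coeff_natDegree
    rw [e1, coeff_eq_zero_of_natDegree_lt (by rw [hgd]; omega), sum_eq_zero fun j hj => by
      rw [if_neg (by have := mem_range.1 hj; omega), mul_zero]] at this
    norm_num at this
  · have h1 := hs k x hx
    have h2 := hs l x hx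
    have h3 : aeval x (g k - g l + ∑ j ∈ range n₀, C (⌊(r k).coeff j⌋ - ⌊(r l).coeff j⌋) * X ^ j) =
        (aeval x (g k) + (r k).eval x) - (aeval x (g l) + (r l).eval x) -
          ∑ j ∈ range n₀, (Int.fract ((r k).coeff j) - Int.fract ((r l).coeff j)) * x ^ j := by
      rw [hr' k, hr' l]
      simp only [map_add, map_sub, map_sum, map_mul, aeval_C, map_pow, aeval_X, eq_intCast,
        Int.fract, sub_mul, sum_sub_distrib, map_intCast]
      ring
    have h4 : |∑ j ∈ range n₀, (Int.fract ((r k).coeff j) - Int.fract ((r l).coeff j)) * x ^ j|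
        ≤ 1 / 4 := by
      refine (abs_sum_le_sum_abs _ _).trans ((sum_le_card_nsmul _ _ (B ^ n₀ / Q) fun j hj => ?_).trans ?_)
      · have e1 := Int.abs_sub_lt_one_of_floor_eq_floor (congrFun hΦe ⟨j, mem_range.1 hj⟩)
        rw [← mul_sub, abs_mul, abs_of_pos hQ0] at e1
        have e2 : |x| ^ j ≤ B ^ n₀ := (pow_le_pow_left₀ (abs_nonneg _) (hB x hx) _).trans
          (pow_le_pow_right₀ hB1 (mem_range.1 hj).le)
        rw [abs_mul, abs_pow, le_div_iff₀ hQ0]
        have e3 := pow_nonneg (abs_nonneg x) j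
        nlinarith
      · rw [card_range, nsmul_eq_mul, ← mul_div_assoc, div_le_iff₀ hQ0]; linarith
    rw [h3]
    refine (abs_sub _ _).trans ?_
    have := abs_sub (aeval x (g k) + (r k).eval x) (aeval x (g l) + (r l).eval x)
    linarith

theorem recurrence {K : Set ℝ} {B : ℝ} (hB1 : 1 ≤ B) (hB : ∀ x ∈ K, |x| ≤ B) {p : ℝ[X]}
    (hp : p.Monic) (hd : 0 < p.natDegree) (hs : ∀ x ∈ K, |p.eval x| ≤ 1 / 2) (c : ℕ → ℤ)
    (hc : Bnd K fun n => (c n : ℝ)) : ∃ w : ℤ[X], w ≠ 0 ∧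
      ∀ n, ∑ k ∈ range (w.natDegree + 1), w.coeff k * c (k + n) = 0 := by
  obtain ⟨A, σ, e, hA, hσ0, hσ1, he⟩ := small_basis hB1 hB hp hd hs
  obtain ⟨v, hv0, hv⟩ := small_int_poly hB1 hB hA hσ0 hσ1 he
  obtain ⟨C, hC, hc⟩ := hc
  obtain ⟨k, hk⟩ := exists_pow_lt_of_lt_one (show 0 < 1 / ((C + 1) * A) by positivity)
    (show (1 / 2 : ℝ) < 1 by norm_num)
  refine ⟨v ^ k, pow_ne_zero _ hv0, ?_⟩
  set w := v ^ k with hw
  have hu : ∀ n, mom (fun n => (c n : ℝ)) (w.map (Int.castRingHom ℝ) * X ^ n) =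
      ((∑ k ∈ range (w.natDegree + 1), w.coeff k * c (k + n) : ℤ) : ℝ) := fun n => by
    conv_lhs => rw [w.as_sum_range_C_mul_X_pow]
    rw [Polynomial.map_sum, sum_mul, map_sum]
    push_cast
    refine sum_congr rfl fun j _ => ?_
    rw [Polynomial.map_mul, Polynomial.map_pow, map_C, map_X, mul_assoc, ← pow_add, mom_C_mul,
      mom_X_pow, eq_intCast]
  intro n
  induction n using Nat.strong_induction_on with
  | _ n ih =>
    obtain ⟨hm, hdeg, hsm⟩ := he n
    have h1 : mom (fun n => (c n : ℝ)) (w.map (Int.castRingHom ℝ) * e n) =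
        ((∑ k ∈ range (w.natDegree + 1), w.coeff k * c (k + n) : ℤ) : ℝ) := by
      rw [hm.as_sum, hdeg, mul_add, map_add, hu, mul_sum, map_sum, add_eq_left]
      refine sum_eq_zero fun j hj => ?_
      rw [mul_left_comm, mom_C_mul, hu, ih j (mem_range.1 hj)]
      simp
    have h2 := hc (w.map (Int.castRingHom ℝ) * e n) ((1 / 2) ^ k * A) (by positivity) fun x hx => by
      rw [eval_mul, abs_mul, ← algebraMap_int_eq, eval_map_algebraMap, hw, map_pow, abs_pow]
      have : σ ^ n ≤ 1 := pow_le_one₀ hσ0.le hσ1.le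
      refine mul_le_mul (pow_le_pow_left₀ (abs_nonneg _) (hv x hx) _) ((hsm x hx).trans ?_)
        (abs_nonneg _) (by positivity)
      nlinarith
    rw [h1] at h2
    rw [lt_div_iff₀ (by positivity)] at hk
    have h3 : 0 < (1 / 2 : ℝ) ^ k * A := by positivity
    have h4 : |((∑ k ∈ range (w.natDegree + 1), w.coeff k * c (k + n) : ℤ) : ℝ)| < 1 := by nlinarith
    rw [← Int.cast_abs] at h4
    exact Int.abs_lt_one_iff.1 (by exact_mod_cast h4)

theorem rootMult_lin (z : ℝ) (hz : z ≠ 0) (Y : Multiset ℝ) :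
    (Y.map fun a => (1 - C a * X : ℝ[X])).prod ≠ 0 ∧
      rootMultiplicity z⁻¹ (Y.map fun a => (1 - C a * X : ℝ[X])).prod = Y.count z := by
  induction Y using Multiset.induction_on with
  | empty => simp
  | cons a Y ih =>
    have h0 : (1 - C a * X : ℝ[X]) ≠ 0 := fun h => by
      have := congrArg (eval 0) h
      simp at this
    rw [Multiset.map_cons, Multiset.prod_cons]
    refine ⟨mul_ne_zero h0 ih.1, ?_⟩
    rw [rootMultiplicity_mul (mul_ne_zero h0 ih.1), ih.2, Multiset.count_cons, add_comm]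
    congr 1
    split_ifs with h
    · subst h
      have e : (1 - C z * X : ℝ[X]) = C (-z) * (X - C z⁻¹) := by
        rw [mul_sub, ← C_mul, neg_mul, mul_inv_cancel₀ hz]; simp; ring
      rw [e] at h0 ⊢
      rw [rootMultiplicity_mul h0, rootMultiplicity_C, rootMultiplicity_X_sub_C_self]
    · refine rootMultiplicity_eq_zero fun h' => h ?_
      simp only [IsRoot.def, eval_sub, eval_one, eval_mul, eval_C, eval_X] at h'
      field_simp at h'
      linarith

theorem coe_prod_lin (Y : Multiset ℝ) :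
    (((Y.map fun a => (1 - C a * X : ℝ[X])).prod : ℝ[X]) : PowerSeries ℝ) = (Y.map lin).prod := by
  induction Y using Multiset.induction_on with
  | empty => simp
  | cons a Y ih => simp [ih, lin]

/-- No integer square root when the negativity set has small Chebyshev constant. -/
theorem no_int_sqrt (Y : Multiset ℝ) (hcard : Even Y.card) (z0 : ℝ) (hz : z0 ≠ 0)
    (hz0 : Odd (Y.count z0)) (G : PowerSeries ℤ) (hG0 : PowerSeries.constantCoeff G = 1)
    (hG : (G.map (Int.castRingHom ℝ)) ^ 2 = (Y.map lin).prod)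
    (lo hi : ℝ) (hY : ∀ a ∈ Y, a ∈ Set.Icc lo hi) {p : ℝ[X]} (hp : p.Monic)
    (hs : ∀ x ∈ Set.Icc lo hi, (Y.map fun a => x - a).prod ≤ 0 → |p.eval x| ≤ 1 / 2) : False := by
  have hzY : z0 ∈ Y := Multiset.count_pos.1 hz0.pos
  have hd : 0 < p.natDegree := by
    by_contra h
    have h1 : p = 1 := hp.natDegree_eq_zero.1 (by omega)
    have := hs z0 (hY _ hzY) (le_of_eq (Multiset.prod_eq_zero (Multiset.mem_map.2 ⟨z0, hzY, sub_self _⟩)))
    rw [h1] at this
    norm_num at this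
  obtain ⟨m, hm⟩ := good_sqrt Y hcard z0 hz0 _ (by
    rw [← PowerSeries.coeff_zero_eq_constantCoeff_apply, PowerSeries.coeff_map,
      PowerSeries.coeff_zero_eq_constantCoeff_apply, hG0, map_one]) hG lo hi hY
  simp only [PowerSeries.coeff_map, eq_intCast] at hm
  obtain ⟨w, hw0, hw⟩ := recurrence (B := |lo| + |hi| + 1) (by linarith [abs_nonneg lo, abs_nonneg hi])
    (fun x hx => by
      rw [abs_le]
      constructor <;> linarith [hx.1.1, hx.1.2, neg_abs_le lo, le_abs_self hi, abs_nonneg lo,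
        abs_nonneg hi]) hp hd (fun x hx => hs x hx.1 hx.2) _ hm
  set r := w.natDegree with hr
  set F := G.map (Int.castRingHom ℝ) with hF
  let V : ℝ[X] := ∑ k ∈ range (r + 1), C (w.coeff k : ℝ) * X ^ (r - k)
  have hV : V ≠ 0 := fun h => by
    have := congrArg (fun q => q.coeff 0) h
    simp only [V, finset_sum_coeff, coeff_C_mul, coeff_X_pow, coeff_zero] at this
    rw [sum_eq_single r (fun j hj hjr => by
      rw [if_neg (by have := mem_range.1 hj; omega), mul_zero]) (by simp), if_pos (by omega), mul_one,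
      Int.cast_eq_zero] at this
    exact hw0 (leadingCoeff_eq_zero.1 this)
  have hT : ((PowerSeries.trunc (m + r) ((V : PowerSeries ℝ) * F) : ℝ[X]) : PowerSeries ℝ) = V * F := by
    ext j
    rw [Polynomial.coeff_coe, PowerSeries.coeff_trunc]
    split_ifs with h
    · rfl
    · obtain ⟨n, rfl⟩ : ∃ n, j = n + m + r := ⟨j - (m + r), by omega⟩
      have h1 := congrArg (fun t : ℤ => (t : ℝ)) (hw n)
      push_cast at h1
      rw [← h1]
      simp only [V, ← Polynomial.coeToPowerSeries.ringHom_apply, map_sum, sum_mul]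
      refine sum_congr rfl fun k hk => ?_
      have hk' := mem_range.1 hk
      have e : n + m + r = (k + n + m) + (r - k) := by omega
      rw [Polynomial.coeToPowerSeries.ringHom_apply, Polynomial.coe_mul, Polynomial.coe_C,
        Polynomial.coe_pow, Polynomial.coe_X, mul_assoc, PowerSeries.coeff_C_mul, e,
        PowerSeries.coeff_X_pow_mul, hF, PowerSeries.coeff_map, eq_intCast]
  set T := PowerSeries.trunc (m + r) ((V : PowerSeries ℝ) * F)
  obtain ⟨hR0, hR⟩ := rootMult_lin z0 hz Y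
  have hE : T * T = V * V * (Y.map fun a => (1 - C a * X : ℝ[X])).prod := by
    apply Polynomial.coe_injective ℝ
    simp only [Polynomial.coe_mul, hT, coe_prod_lin, ← hG]
    ring
  have hne := mul_ne_zero (mul_ne_zero hV hV) hR0
  have h2 := congrArg (rootMultiplicity z0⁻¹) hE
  rw [rootMultiplicity_mul (hE ▸ hne), rootMultiplicity_mul hne,
    rootMultiplicity_mul (mul_ne_zero hV hV), hR] at h2
  obtain ⟨t, ht⟩ := hz0
  omega

end Pool.Agent.MP_108ce6_nt
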